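import Mathlib

section

/-!
Closure properties of a family `W` of languages, transported to arbitrary finite alphabets.
-/

set_option autoImplicit false

namespace Pool.Agent.MP_df6b17_lc

/-- recognised by a finite local group -/
def LGRec {α : Type} (L : Set (List α)) : Prop :=
  ∃ (S : Type) (_ : Semigroup S) (_ : Finite S),
    (∀ e : S, e * e = e → ∀ x : S, ∃ y : S,
      (e * x * e) * (e * y * e) = e ∧ (e * y * e) * (e * x * e) = e) ∧
    ∃ φ : List α → S, (∀ u v : List α, u ≠ [] → v ≠ [] → φ (u ++ v) = φ u * φ v) ∧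
      ∃ X : Set S, L = {w : List α | w ≠ [] ∧ φ w ∈ X}

/-- the closure hypotheses of the statement -/
structure Closed (W : (k : ℕ) → Set (Set (List (Fin k)))) : Prop where
  empty : ∀ k, (∅ : Set (List (Fin k))) ∈ W k
  compl : ∀ k, ∀ L ∈ W k, {w : List (Fin k) | w ≠ [] ∧ w ∉ L} ∈ W k
  union : ∀ k, ∀ L ∈ W k, ∀ K ∈ W k, L ∪ K ∈ W k
  quot : ∀ k, ∀ L ∈ W k, ∀ u : List (Fin k),
    {w : List (Fin k) | w ≠ [] ∧ u ++ w ∈ L} ∈ W k ∧
    {w : List (Fin k) | w ≠ [] ∧ w ++ u ∈ L} ∈ W k
  inv : ∀ (k m : ℕ) (φ : Fin m → List (Fin k)), (∀ a, φ a ≠ []) →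
    ∀ L ∈ W k, {w : List (Fin m) | w ≠ [] ∧ w.flatMap φ ∈ L} ∈ W m
  code : ∀ (k : ℕ) (P : Finset (List (Fin k))),
    ([] : List (Fin k)) ∉ P →
    (∀ p ∈ P, ∀ q ∈ P, p <+: q → p = q) →
    LGRec {w : List (Fin k) | ∃ l : List (List (Fin k)),
      l ≠ [] ∧ (∀ p ∈ l, p ∈ P) ∧ w = l.flatten} →
    {w : List (Fin k) | ∃ l : List (List (Fin k)),
      l ≠ [] ∧ (∀ p ∈ l, p ∈ P) ∧ w = l.flatten} ∈ W k

variable {W : (k : ℕ) → Set (Set (List (Fin k)))}

/-- membership in `W` of the set of nonempty words over `α` satisfying `p` -/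
def WW (W : (k : ℕ) → Set (Set (List (Fin k)))) {α : Type} [Finite α] (p : List α → Prop) :
    Prop :=
  {w : List (Fin (Nat.card α)) | w ≠ [] ∧ p (w.map (Finite.equivFin α).symm)} ∈ W (Nat.card α)

section
variable {α β : Type} [Finite α] [Finite β]

theorem WW.congr {p q : List α → Prop} (h : WW W p) (hpq : ∀ w, w ≠ [] → (p w ↔ q w)) :
    WW W q := by
  unfold WW at *
  convert h using 2
  ext w
  constructor
  · rintro ⟨h1, h2⟩
    exact ⟨h1, (hpq _ (by simpa using h1)).2 h2⟩
  · rintro ⟨h1, h2⟩
    exact ⟨h1, (hpq _ (by simpa using h1)).1 h2⟩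

theorem WW_false (hW : Closed W) : WW W (fun _ : List α => False) := by
  unfold WW
  simpa using hW.empty _

theorem WW.not (hW : Closed W) {p : List α → Prop} (h : WW W p) : WW W (fun w => ¬ p w) := by
  unfold WW at *
  convert hW.compl _ _ h using 2
  ext w
  simp only [Set.mem_ofPred_eq]
  tauto

theorem WW.or (hW : Closed W) {p q : List α → Prop} (h : WW W p) (h' : WW W q) :
    WW W (fun w => p w ∨ q w) := by
  unfold WW at *
  convert hW.union _ _ h _ h' using 1
  ext w
  simp only [Set.mem_ofPred_eq, Set.mem_union]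
  tauto

theorem WW.and (hW : Closed W) {p q : List α → Prop} (h : WW W p) (h' : WW W q) :
    WW W (fun w => p w ∧ q w) :=
  (((h.not hW).or hW (h'.not hW)).not hW).congr (fun w _ => by tauto)

theorem WW_true (hW : Closed W) : WW W (fun _ : List α => True) :=
  ((WW_false hW).not hW).congr (fun w _ => by tauto)

theorem WW_const (hW : Closed W) (c : Prop) : WW W (fun _ : List α => c) := by
  by_cases hc : c
  · exact (WW_true hW).congr (fun w _ => by tauto)
  · exact (WW_false hW).congr (fun w _ => by tauto)

theorem WW.left (hW : Closed W) {p : List α → Prop} (h : WW W p) (u : List α) :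
    WW W (fun w => p (u ++ w)) := by
  unfold WW at *
  convert (hW.quot _ _ h (u.map (Finite.equivFin α))).1 using 2
  ext w
  simp only [Set.mem_ofPred_eq, List.map_append, List.map_map, Equiv.symm_comp_self, List.map_id]
  constructor
  · rintro ⟨h1, h2⟩
    exact ⟨h1, by simp [h1], h2⟩
  · rintro ⟨h1, _, h2⟩
    exact ⟨h1, h2⟩

theorem WW.right (hW : Closed W) {p : List α → Prop} (h : WW W p) (u : List α) :
    WW W (fun w => p (w ++ u)) := by
  unfold WW at *
  convert (hW.quot _ _ h (u.map (Finite.equivFin α))).2 using 2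
  ext w
  simp only [Set.mem_ofPred_eq, List.map_append, List.map_map, Equiv.symm_comp_self, List.map_id]
  constructor
  · rintro ⟨h1, h2⟩
    exact ⟨h1, by simp [h1], h2⟩
  · rintro ⟨h1, _, h2⟩
    exact ⟨h1, h2⟩

theorem WW.inv (hW : Closed W) {p : List β → Prop} (h : WW W p) (ψ : α → List β)
    (hψ : ∀ a, ψ a ≠ []) : WW W (fun w : List α => p (w.flatMap ψ)) := by
  unfold WW at *
  convert hW.inv _ (Nat.card α)
    (fun i => (ψ ((Finite.equivFin α).symm i)).map (Finite.equivFin β))
    (fun i => by simpa using hψ _) _ h using 2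
  ext w
  have key : List.map (⇑(Finite.equivFin β).symm)
      (List.flatMap (fun i => (ψ ((Finite.equivFin α).symm i)).map (Finite.equivFin β)) w)
      = List.flatMap ψ (List.map (⇑(Finite.equivFin α).symm) w) := by
    simp [List.map_flatMap, List.flatMap_map, List.map_map]
  simp only [Set.mem_ofPred_eq, key]
  constructor
  · rintro ⟨h1, h2⟩
    refine ⟨h1, ?_, h2⟩
    obtain ⟨a, l, rfl⟩ := List.exists_cons_of_ne_nil h1
    simp [hψ]
  · rintro ⟨h1, _, h2⟩
    exact ⟨h1, h2⟩

theorem WW_exists (hW : Closed W) {ι : Type} [Finite ι] {p : ι → List α → Prop}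
    (h : ∀ i, WW W (p i)) : WW W (fun w => ∃ i, p i w) := by
  classical
  have := Fintype.ofFinite ι
  have : ∀ s : Finset ι, WW W (fun w => ∃ i ∈ s, p i w) := by
    intro s
    induction s using Finset.induction_on with
    | empty => exact (WW_false hW).congr (fun w _ => by simp)
    | insert a s _ ih => exact ((h a).or hW ih).congr (fun w _ => by simp)
  exact (this Finset.univ).congr (fun w _ => by simp)

theorem WW_forall (hW : Closed W) {ι : Type} [Finite ι] {p : ι → List α → Prop}
    (h : ∀ i, WW W (p i)) : WW W (fun w => ∀ i, p i w) :=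
  ((WW_exists hW (fun i => (h i).not hW)).not hW).congr (fun w _ => by simp)

/-- a function on words all of whose predicates are in `W` -/
def Rec (W : (k : ℕ) → Set (Set (List (Fin k)))) {α : Type} [Finite α] {T : Type}
    (f : List α → T) : Prop :=
  ∀ X : T → Prop, WW W (fun w => X (f w))

theorem Rec_of_fibers (hW : Closed W) {T : Type} [Finite T] {f : List α → T}
    (h : ∀ t, WW W (fun w => f w = t)) : Rec W f := by
  intro X
  refine (WW_exists hW (ι := T) (p := fun t w => X t ∧ f w = t)
    (fun t => (WW_const hW (X t)).and hW (h t))).congr (fun w _ => ?_)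
  simp

theorem Rec_of_WW (hW : Closed W) {p : List α → Prop} (h : WW W p) : Rec W p := by
  refine Rec_of_fibers hW (fun t => ?_)
  by_cases ht : t
  · exact h.congr (fun w _ => by simp [ht])
  · exact (h.not hW).congr (fun w _ => by simp [ht])

theorem Rec.determined {T T' : Type} {f : List α → T} (h : Rec W f) {g : List α → T'}
    (hg : ∀ w w', w ≠ [] → w' ≠ [] → f w = f w' → g w = g w') : Rec W g := by
  intro X
  refine (h (fun t => ∃ w', w' ≠ [] ∧ f w' = t ∧ X (g w'))).congr (fun w hw => ?_)
  constructor
  · rintro ⟨w', h1, h2, h3⟩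
    rwa [hg w w' hw h1 h2.symm]
  · intro hx
    exact ⟨w, hw, rfl, hx⟩

theorem Rec_pi (hW : Closed W) {ι : Type} [Finite ι] {T : Type} [Finite T]
    {f : ι → List α → T} (h : ∀ i, Rec W (f i)) : Rec W (fun w i => f i w) := by
  refine Rec_of_fibers hW (fun t => ?_)
  refine (WW_forall hW (p := fun i w => f i w = t i) (fun i => h i (fun s => s = t i))).congr
    (fun w _ => ?_)
  simp [funext_iff]

theorem Rec.pair (hW : Closed W) {T T' : Type} [Finite T] [Finite T'] {f : List α → T}
    {g : List α → T'} (h : Rec W f) (h' : Rec W g) : Rec W (fun w => (f w, g w)) := by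
  refine Rec_of_fibers hW (fun t => ?_)
  refine ((h (fun s => s = t.1)).and hW (h' (fun s => s = t.2))).congr (fun w _ => ?_)
  simp [Prod.ext_iff]

theorem Rec.left (hW : Closed W) {T : Type} {f : List α → T} (h : Rec W f) (u : List α) :
    Rec W (fun w => f (u ++ w)) := fun X => (h X).left hW u

theorem Rec.right (hW : Closed W) {T : Type} {f : List α → T} (h : Rec W f) (u : List α) :
    Rec W (fun w => f (w ++ u)) := fun X => (h X).right hW u

theorem Rec.inv (hW : Closed W) {T : Type} {f : List β → T} (h : Rec W f) (ψ : α → List β)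
    (hψ : ∀ a, ψ a ≠ []) : Rec W (fun w : List α => f (w.flatMap ψ)) :=
  fun X => (h X).inv hW ψ hψ

theorem WW.toFin (hW : Closed W) {n : ℕ} {p : List (Fin n) → Prop} (h : WW W p) :
    {w : List (Fin n) | w ≠ [] ∧ p w} ∈ W n := by
  unfold WW at h
  convert hW.inv _ n (fun i => [Finite.equivFin (Fin n) i]) (fun i => by simp) _ h using 2
  ext w
  have key : List.map (⇑(Finite.equivFin (Fin n)).symm)
      (List.flatMap (fun i => [Finite.equivFin (Fin n) i]) w) = w := by
    simp [List.map_flatMap]
  simp only [Set.mem_ofPred_eq, key]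
  constructor
  · rintro ⟨h1, h2⟩
    refine ⟨h1, ?_, h2⟩
    obtain ⟨a, l, rfl⟩ := List.exists_cons_of_ne_nil h1
    simp
  · rintro ⟨h1, _, h2⟩
    exact ⟨h1, h2⟩

end

end Pool.Agent.MP_df6b17_lc

end

section

/-!
Eventually injective automata recognise their languages through a finite local group, and
right-unitary sets with bounded return are of the form `P⁺` for a finite code `P`.
-/

set_option autoImplicit false

namespace Pool.Agent.MP_df6b17_lc

theorem exists_idem {S : Type} [Semigroup S] [Finite S] (T : Set S) (hne : T.Nonempty)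
    (hT : ∀ x ∈ T, ∀ y ∈ T, x * y ∈ T) : ∃ e ∈ T, e * e = e := by
  let : TopologicalSpace S := ⊥
  have : DiscreteTopology S := ⟨rfl⟩
  exact exists_idempotent_in_compact_subsemigroup (fun _ => continuous_of_discreteTopology) T hne
    (Set.toFinite T).isCompact hT

/-- eventual injectivity of an automaton -/
def EvInj {α St : Type} (step : St → α → St) : Prop :=
  ∃ μ : ℕ, ∀ u v : List α, μ ≤ u.length → ∀ p q : St,
    (u ++ v).foldl step p = (u ++ v).foldl step q → u.foldl step p = u.foldl step q

/-- the transition semigroup -/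
def Trans {α St : Type} (step : St → α → St) : Type :=
  {f : St → St // ∃ w : List α, w ≠ [] ∧ f = fun s => w.foldl step s}

instance {α St : Type} (step : St → α → St) : Semigroup (Trans step) where
  mul f g := ⟨fun s => g.1 (f.1 s), by
    obtain ⟨u, hu, hf⟩ := f.2
    obtain ⟨v, _, hg⟩ := g.2
    exact ⟨u ++ v, by simp [hu], by rw [hf, hg]; funext s; simp⟩⟩
  mul_assoc _ _ _ := rfl

instance {α St : Type} [Finite St] (step : St → α → St) : Finite (Trans step) := by
  unfold Trans; infer_instance

theorem Trans.mul_val {α St : Type} {step : St → α → St} (f g : Trans step) (s : St) :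
    (f * g).1 s = g.1 (f.1 s) := rfl

theorem Trans.long {α St : Type} {step : St → α → St} (e : Trans step) (he : e * e = e) (m : ℕ) :
    ∃ u : List α, m ≤ u.length ∧ e.1 = fun s => u.foldl step s := by
  obtain ⟨w, hw, hf⟩ := e.2
  induction m with
  | zero => exact ⟨w, by simp, hf⟩
  | succ m ih =>
    obtain ⟨u, hu, hu'⟩ := ih
    refine ⟨u ++ w, ?_, ?_⟩
    · have := List.length_pos_iff.2 hw
      simp only [List.length_append]; omega
    · funext s
      have h1 := congrFun (congrArg Subtype.val he) s
      rw [Trans.mul_val] at h1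
      rw [← h1, List.foldl_append]
      have h2 : e.1 s = u.foldl step s := congrFun hu' s
      rw [← h2]
      exact congrFun hf _

theorem Trans.local {α St : Type} [Finite St] {step : St → α → St} (h : EvInj step)
    (e : Trans step) (he : e * e = e) (x : Trans step) :
    ∃ y : Trans step, (e * x * e) * (e * y * e) = e ∧ (e * y * e) * (e * x * e) = e := by
  obtain ⟨μ, hμ⟩ := h
  obtain ⟨u, hu, hu'⟩ := Trans.long e he μ
  have inj : ∀ s : Trans step, ∀ p q, (e * s).1 p = (e * s).1 q → e.1 p = e.1 q := by
    intro s p q hpq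
    obtain ⟨v, _, hv⟩ := s.2
    rw [Trans.mul_val, Trans.mul_val, hv, hu'] at hpq
    rw [hu']
    apply hμ u v hu
    simpa using hpq
  have ee : ∀ z : Trans step, e * (e * z) = e * z := fun z => by rw [← mul_assoc, he]
  obtain ⟨f, ⟨y, hy1, hy2⟩, hf⟩ := exists_idem
    {s : Trans step | ∃ y, s = (e * x * e) * (e * y * e) ∧ s = (e * y * e) * (e * x * e)}
    ⟨(e * x * e) * (e * x * e), x, rfl, rfl⟩ (by
      rintro s ⟨y, h1, h2⟩ s' ⟨y', h1', h2'⟩
      refine ⟨y * e * x * e * y', ?_, ?_⟩
      · rw [h1, h1']; simp only [mul_assoc, ee]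
      · rw [h2, h2']; simp only [mul_assoc, ee])
  have hfe : f = e := by
    apply Subtype.ext
    funext p
    have h1 : f = e * (x * e * (e * y * e)) := by rw [hy1]; simp only [mul_assoc]
    have h2 : f * e = f := by rw [hy1]; simp only [mul_assoc, he]
    have h3 := congrFun (congrArg Subtype.val hf) p
    rw [Trans.mul_val] at h3
    have h4 := inj (x * e * (e * y * e)) (f.1 p) p (by rw [← h1]; exact h3)
    have h5 := congrFun (congrArg Subtype.val h2) p
    rw [Trans.mul_val] at h5
    rw [← h5, h4]
  exact ⟨y, by rw [← hy1, hfe], by rw [← hy2, hfe]⟩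

theorem LGRec_of_evInj {α St : Type} [Nonempty α] [Finite St] {step : St → α → St}
    (h : EvInj step) (s₀ : St) (T : Set St) :
    LGRec {w : List α | w ≠ [] ∧ w.foldl step s₀ ∈ T} := by
  classical
  obtain ⟨a⟩ := ‹Nonempty α›
  refine ⟨Trans step, inferInstance, inferInstance, Trans.local h,
    fun w => if hw : w = [] then ⟨fun s => [a].foldl step s, [a], by simp, rfl⟩
      else ⟨fun s => w.foldl step s, w, hw, rfl⟩, ?_, {f | f.1 s₀ ∈ T}, ?_⟩
  · intro u v hu hv
    apply Subtype.ext
    funext s
    simp [Trans.mul_val, hu, hv]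
  · ext w
    simp only [Set.mem_ofPred_eq]
    constructor
    · rintro ⟨h1, h2⟩
      exact ⟨h1, by simpa [h1] using h2⟩
    · rintro ⟨h1, h2⟩
      exact ⟨h1, by simpa [h1] using h2⟩

variable {W : (k : ℕ) → Set (Set (List (Fin k)))}

theorem mem_of_unitary (hW : Closed W) {k : ℕ} (M : List (Fin k) → Prop)
    (hU : ∀ x y, M x → (M (x ++ y) ↔ M y))
    (lam : ℕ) (hR : ∀ w : List (Fin k), lam ≤ w.length → ∃ i, 0 < i ∧ i ≤ lam ∧ M (w.take i))
    (hL : LGRec {w : List (Fin k) | w ≠ [] ∧ M w}) :
    {w : List (Fin k) | w ≠ [] ∧ M w} ∈ W k := by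
  classical
  have hfin : {w : List (Fin k) | w ≠ [] ∧ M w ∧
      ∀ i, 0 < i → i < w.length → ¬ M (w.take i)}.Finite := by
    refine (List.finite_length_le (Fin k) lam).subset ?_
    rintro w ⟨_, _, h3⟩
    simp only [Set.mem_ofPred_eq]
    by_contra hlt
    obtain ⟨i, hi, hi', hM⟩ := hR w (by omega)
    exact h3 i hi (by omega) hM
  have key : {w : List (Fin k) | ∃ l : List (List (Fin k)),
      l ≠ [] ∧ (∀ p ∈ l, p ∈ hfin.toFinset) ∧ w = l.flatten} = {w | w ≠ [] ∧ M w} := by
    ext w
    simp only [Set.mem_ofPred_eq, Set.Finite.mem_toFinset]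
    constructor
    · rintro ⟨l, hl, hP, rfl⟩
      induction l with
      | nil => exact absurd rfl hl
      | cons p l ih =>
        have hp := hP p (by simp)
        refine ⟨by simp [hp.1], ?_⟩
        by_cases hl' : l = []
        · subst hl'; simpa using hp.2.1
        · rw [List.flatten_cons, hU _ _ hp.2.1]
          exact (ih hl' (fun q hq => hP q (by simp [hq]))).2
    · induction hn : w.length using Nat.strong_induction_on generalizing w with
      | _ n ih =>
        rintro ⟨hw, hM⟩
        have hex : ∃ i, 0 < i ∧ M (w.take i) :=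
          ⟨w.length, List.length_pos_iff.2 hw, by simpa using hM⟩
        have hi := Nat.find_spec hex
        have hle : Nat.find hex ≤ w.length :=
          Nat.find_min' hex ⟨List.length_pos_iff.2 hw, by simpa using hM⟩
        have hP : w.take (Nat.find hex) ≠ [] ∧ M (w.take (Nat.find hex)) ∧
            ∀ i, 0 < i → i < (w.take (Nat.find hex)).length →
              ¬ M ((w.take (Nat.find hex)).take i) := by
          refine ⟨?_, hi.2, ?_⟩
          · intro h0
            have := congrArg List.length h0
            simp only [List.length_take, List.length_nil] at this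
            omega
          · intro i h1 h2 h3
            simp only [List.length_take] at h2
            rw [List.take_take, min_eq_left (by omega)] at h3
            exact Nat.find_min hex (by omega) ⟨h1, h3⟩
        by_cases hd : w.drop (Nat.find hex) = []
        · refine ⟨[w.take (Nat.find hex)], by simp, by simpa using hP, ?_⟩
          have := List.take_append_drop (Nat.find hex) w
          rw [hd] at this
          simpa using this.symm
        · have hMd : M (w.drop (Nat.find hex)) := by
            rw [← hU _ _ hi.2, List.take_append_drop]; exact hM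
          obtain ⟨l, _, hl2, hl3⟩ := ih (w.drop (Nat.find hex)).length
            (by simp only [List.length_drop]; have := List.length_pos_iff.2 hw; omega)
            _ rfl ⟨hd, hMd⟩
          refine ⟨w.take (Nat.find hex) :: l, by simp, ?_, ?_⟩
          · intro p hp
            rcases List.mem_cons.1 hp with rfl | hp
            · exact hP
            · exact hl2 p hp
          · rw [List.flatten_cons, ← hl3, List.take_append_drop]
  rw [← key]
  apply hW.code
  · simp
  · intro p hp q hq hpq
    simp only [Set.Finite.mem_toFinset, Set.mem_ofPred_eq] at hp hq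
    by_contra hne
    have hlt : p.length < q.length :=
      lt_of_le_of_ne hpq.length_le (fun h => hne (hpq.eq_of_length h))
    apply hq.2.2 p.length (List.length_pos_iff.2 hp.1) hlt
    rw [← List.prefix_iff_eq_take.1 hpq]
    exact hp.2.1
  · rw [key]; exact hL

theorem WW_of_unitary (hW : Closed W) {α St : Type} [Finite α] [Nonempty α] [Finite St]
    (M : List α → Prop) (hU : ∀ x y, M x → (M (x ++ y) ↔ M y))
    (lam : ℕ) (hR : ∀ w : List α, lam ≤ w.length → ∃ i, 0 < i ∧ i ≤ lam ∧ M (w.take i))
    {step : St → α → St} (h : EvInj step) (s₀ : St) (T : Set St)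
    (hM : ∀ w, M w ↔ w.foldl step s₀ ∈ T) : WW W M := by
  unfold WW
  have : Nonempty (Fin (Nat.card α)) := ⟨Finite.equivFin α (Classical.arbitrary α)⟩
  apply mem_of_unitary hW (fun w => M (w.map (Finite.equivFin α).symm)) _ lam
  · intro w hw
    obtain ⟨i, h1, h2, h3⟩ := hR (w.map (Finite.equivFin α).symm) (by simpa using hw)
    exact ⟨i, h1, h2, by rw [List.map_take]; exact h3⟩
  · have hE : EvInj (fun s b => step s ((Finite.equivFin α).symm b)) := by
      obtain ⟨μ, hμ⟩ := h
      refine ⟨μ, fun u v hu p q hpq => ?_⟩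
      have := hμ (u.map (Finite.equivFin α).symm) (v.map (Finite.equivFin α).symm)
        (by simpa using hu) p q (by rw [← List.map_append, List.foldl_map, List.foldl_map]; exact hpq)
      rwa [List.foldl_map, List.foldl_map] at this
    convert LGRec_of_evInj hE s₀ T using 3 with w
    rw [hM, List.foldl_map]
  · intro x y hx
    rw [List.map_append]
    exact hU _ _ hx

end Pool.Agent.MP_df6b17_lc

end

section

/-!
History dependent injective systems with finite memory.
-/

set_option autoImplicit false

namespace Pool.Agent.MP_df6b17_lc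

/-- `run π z ω v`: starting in state `ω` after the text `z`, read `v`; the map `π z'` is applied
when the text has become `z'`. -/
def run {α Ω : Type} (π : List α → Ω → Ω) : List α → Ω → List α → Ω
  | _, ω, [] => ω
  | z, ω, b :: v => run π (z ++ [b]) (π (z ++ [b]) ω) v

/-- `f` only depends on the last `μ` letters of long words -/
def Mem {α T : Type} (μ : ℕ) (f : List α → T) : Prop :=
  ∀ z z' y : List α, μ ≤ y.length → f (z ++ y) = f (z' ++ y)

/-- the last `μ` letters -/
def suf {α : Type} (μ : ℕ) (z : List α) : List α := z.drop (z.length - μ)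

section
variable {α Ω T : Type}

@[simp] theorem run_nil (π : List α → Ω → Ω) (z : List α) (ω : Ω) : run π z ω [] = ω := rfl

theorem run_cons (π : List α → Ω → Ω) (z : List α) (ω : Ω) (b : α) (v : List α) :
    run π z ω (b :: v) = run π (z ++ [b]) (π (z ++ [b]) ω) v := rfl

theorem run_append (π : List α → Ω → Ω) (z : List α) (ω : Ω) (u v : List α) :
    run π z ω (u ++ v) = run π (z ++ u) (run π z ω u) v := by
  induction u generalizing z ω with
  | nil => simp
  | cons b u ih => simp [run_cons, ih]

theorem run_concat (π : List α → Ω → Ω) (z : List α) (ω : Ω) (u : List α) (b : α) :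
    run π z ω (u ++ [b]) = π (z ++ u ++ [b]) (run π z ω u) := by
  rw [run_append]; rfl

theorem run_inj {π : List α → Ω → Ω} (h : ∀ z, Function.Injective (π z)) (z v : List α)
    {ω ω' : Ω} (e : run π z ω v = run π z ω' v) : ω = ω' := by
  induction v generalizing z ω ω' with
  | nil => exact e
  | cons b v ih => exact h _ (ih _ e)

theorem Mem.mono {μ ν : ℕ} {f : List α → T} (h : Mem μ f) (hle : μ ≤ ν) : Mem ν f :=
  fun z z' y hy => h z z' y (hle.trans hy)

theorem run_mem {π : List α → Ω → Ω} {μ : ℕ} (h : Mem μ π) (z z' y : List α)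
    (hy : μ ≤ y.length) (ω : Ω) (v : List α) : run π (z ++ y) ω v = run π (z' ++ y) ω v := by
  induction v generalizing y ω with
  | nil => rfl
  | cons b v ih =>
    rw [run_cons, run_cons, List.append_assoc, List.append_assoc,
      h z z' (y ++ [b]) (by simp; omega)]
    exact ih _ (by simp; omega) _

theorem suf_length_le (μ : ℕ) (z : List α) : (suf μ z).length ≤ μ := by
  simp [suf]; omega

theorem suf_of_le {μ : ℕ} {z : List α} (h : z.length ≤ μ) : suf μ z = z := by
  simp [suf, Nat.sub_eq_zero_of_le h]

theorem suf_length_of_le {μ : ℕ} {z : List α} (h : μ ≤ z.length) : (suf μ z).length = μ := by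
  simp [suf]; omega

theorem suf_suffix (μ : ℕ) (z : List α) : suf μ z <:+ z := List.drop_suffix _ _

theorem suf_append {μ : ℕ} (z y : List α) (h : μ ≤ y.length) : suf μ (z ++ y) = suf μ y := by
  unfold suf
  rw [List.length_append, show z.length + y.length - μ = z.length + (y.length - μ) by omega,
    List.drop_length_add_append]

theorem Mem_suf (μ : ℕ) : Mem μ (suf μ : List α → List α) := fun z z' y hy => by
  rw [suf_append _ _ hy, suf_append _ _ hy]

theorem Mem.suf {μ : ℕ} {f : List α → T} (h : Mem μ f) (z v : List α) :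
    f (suf μ z ++ v) = f (z ++ v) := by
  rcases le_total z.length μ with hz | hz
  · rw [suf_of_le hz]
  · obtain ⟨t, ht⟩ := suf_suffix μ z
    have := h [] t (Pool.Agent.MP_df6b17_lc.suf μ z ++ v)
      (by rw [List.length_append, suf_length_of_le hz]; omega)
    rw [← List.append_assoc t, ht] at this
    simpa using this

theorem run_suf {π : List α → Ω → Ω} {μ : ℕ} (h : Mem μ π) (z : List α) (ω : Ω) (v : List α) :
    run π (suf μ z) ω v = run π z ω v := by
  rcases le_total z.length μ with hz | hz
  · rw [suf_of_le hz]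
  · obtain ⟨t, ht⟩ := suf_suffix μ z
    have := run_mem h [] t (suf μ z) (by rw [suf_length_of_le hz]) ω v
    rw [ht] at this
    simpa using this

/-- the automaton of a system with finite memory -/
def autStep (π : List α → Ω → Ω) (μ : ℕ) (s : Ω × {z : List α // z.length ≤ μ}) (b : α) :
    Ω × {z : List α // z.length ≤ μ} :=
  (π (s.2.1 ++ [b]) s.1, ⟨suf μ (s.2.1 ++ [b]), suf_length_le _ _⟩)

theorem foldl_autStep {π : List α → Ω → Ω} {μ : ℕ} (h : Mem μ π)
    (s : Ω × {z : List α // z.length ≤ μ}) (w : List α) :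
    w.foldl (autStep π μ) s = (run π s.2.1 s.1 w, ⟨suf μ (s.2.1 ++ w), suf_length_le _ _⟩) := by
  induction w generalizing s with
  | nil =>
    obtain ⟨ω, z, hz⟩ := s
    simp [suf_of_le hz]
  | cons b w ih =>
    rw [List.foldl_cons, ih]
    simp only [autStep, run_cons, run_suf h, (Mem_suf μ).suf, List.append_assoc,
      List.singleton_append]

theorem evInj_autStep {π : List α → Ω → Ω} {μ : ℕ} (h : Mem μ π)
    (hinj : ∀ z, Function.Injective (π z)) : EvInj (autStep π μ) := by
  refine ⟨μ, fun u v hu p q hpq => ?_⟩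
  rw [foldl_autStep h, foldl_autStep h] at hpq ⊢
  have h1 := congrArg Prod.fst hpq
  simp only [run_append] at h1
  rw [run_mem h _ q.2.1 u hu] at h1
  have h2 := run_inj hinj _ _ h1
  simp only [h2, suf_append _ _ hu]

variable {W : (k : ℕ) → Set (Set (List (Fin k)))}

theorem WW_of_thread (hW : Closed W) [Finite α] [Nonempty α] [Finite Ω]
    {π : List α → Ω → Ω} {μ : ℕ} (h : Mem μ π) (hinj : ∀ z, Function.Injective (π z)) (q : Ω)
    (hF : ∀ z v, run π z q v = run π [] q v) (lam : ℕ)
    (hR : ∀ w : List α, lam ≤ w.length → ∃ i, 0 < i ∧ i ≤ lam ∧ run π [] q (w.take i) = q) :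
    WW W (fun w => run π [] q w = q) := by
  have : Finite {z : List α // z.length ≤ μ} := (List.finite_length_le α μ).to_subtype
  refine WW_of_unitary hW _ ?_ lam hR (evInj_autStep h hinj) (q, ⟨[], by simp⟩)
    {s | s.1 = q} ?_
  · intro x y hx
    rw [run_append, hx, hF]
  · intro w
    rw [foldl_autStep h]
    simp

end

end Pool.Agent.MP_df6b17_lc

end

section

/-!
Completion of an insufficient finite bifix code to a finite maximal bifix code.
-/

set_option autoImplicit false

namespace Pool.Agent.MP_df6b17_lc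

section
variable {β : Type}

def NoPre (K : List β → Prop) (s : List β) : Prop := ∀ x, x <+: s → ¬ K x

def HasSuf (K : List β → Prop) (s : List β) : Prop := ∃ x, x <:+ s ∧ K x

structure Bifix (K : List β → Prop) (d m : ℕ) : Prop where
  ne : ¬ K []
  pre : ∀ x y, K x → K y → x <+: y → x = y
  suf : ∀ x y, K x → K y → x <:+ y → x = y
  len : ∀ x, K x → x.length ≤ d
  ins : ∀ z v : List β, m ≤ v.length → ∃ i, 0 < i ∧ i ≤ m ∧ ¬ HasSuf K (z ++ v.take i)

open Classical in
noncomputable def rk (K : List β → Prop) : List β → ℕ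
  | [] => 0
  | a :: s => rk K s + if NoPre K (a :: s) then 1 else 0

theorem rk_le (K : List β → Prop) (s : List β) : rk K s ≤ s.length := by
  induction s with
  | nil => simp [rk]
  | cons a s ih => simp only [rk, List.length_cons]; split_ifs <;> omega

theorem rk_mono (K : List β → Prop) {s t : List β} (h : s <:+ t) : rk K s ≤ rk K t := by
  obtain ⟨u, rfl⟩ := h
  induction u with
  | nil => simp
  | cons a u ih => simp only [List.cons_append, rk]; omega

theorem rk_lt (K : List β → Prop) {s t : List β} (h : s <:+ t) (hne : s ≠ t) (ht : NoPre K t) :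
    rk K s < rk K t := by
  cases t with
  | nil => exact absurd (List.suffix_nil.1 h) hne
  | cons a t =>
    have := rk_mono K ((List.suffix_cons_iff.1 h).resolve_left hne)
    simp only [rk, if_pos ht]; omega

theorem noPre_concat {K : List β → Prop} (s : List β) (b : β) :
    NoPre K (s ++ [b]) ↔ NoPre K s ∧ ¬ K (s ++ [b]) := by
  constructor
  · intro h
    exact ⟨fun x hx => h x (hx.trans (List.prefix_append _ _)), h _ List.prefix_rfl⟩
  · rintro ⟨h1, h2⟩ x hx
    rcases List.prefix_concat_iff.1 hx with rfl | hx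
    · exact h2
    · exact h1 x hx

theorem hasSuf_cons {K : List β → Prop} (s : List β) (a : β) :
    HasSuf K (a :: s) ↔ K (a :: s) ∨ HasSuf K s := by
  constructor
  · rintro ⟨x, hx, hK⟩
    rcases List.suffix_cons_iff.1 hx with rfl | hx
    · exact Or.inl hK
    · exact Or.inr ⟨x, hx, hK⟩
  · rintro (h | ⟨x, hx, hK⟩)
    · exact ⟨_, List.suffix_rfl, h⟩
    · exact ⟨x, hx.trans (List.suffix_cons _ _), hK⟩

variable {K : List β → Prop} {d m : ℕ}

theorem Bifix.noPre_nil (h : Bifix K d m) : NoPre K [] := fun x hx => by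
  rw [List.prefix_nil.1 hx]; exact h.ne

theorem Bifix.not_hasSuf_nil (h : Bifix K d m) : ¬ HasSuf K [] := by
  rintro ⟨x, hx, hK⟩
  rw [List.suffix_nil.1 hx] at hK; exact h.ne hK

theorem Bifix.noPre_of (h : Bifix K d m) {s : List β} {b : β} (hK : K (s ++ [b])) : NoPre K s := by
  intro x hx hx'
  have := h.pre x _ hx' hK (hx.trans (List.prefix_append _ _))
  have h2 := hx.length_le
  rw [this] at h2
  simp at h2

open Classical in
theorem Bifix.rk_concat (h : Bifix K d m) (s : List β) (b : β) :
    rk K (s ++ [b]) + (if HasSuf K (s ++ [b]) then 1 else 0) = rk K s + 1 := by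
  induction s with
  | nil =>
    have h1 := noPre_concat (K := K) [] b
    have h2 := hasSuf_cons (K := K) [] b
    have h3 := h.noPre_nil
    have h4 := h.not_hasSuf_nil
    simp only [List.nil_append] at h1 h2 ⊢
    simp only [rk]
    by_cases hb : K [b] <;> simp_all
  | cons a s ih =>
    have h1 := noPre_concat (K := K) (a :: s) b
    have h2 := hasSuf_cons (K := K) (s ++ [b]) a
    simp only [List.cons_append] at h1 h2 ⊢
    simp only [rk]
    by_cases hK : K (a :: (s ++ [b]))
    · have h3 : NoPre K (a :: s) := h.noPre_of (s := a :: s) hK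
      have h4 : ¬ HasSuf K (s ++ [b]) := by
        rintro ⟨x, hx, hx'⟩
        have := h.suf x _ hx' hK (hx.trans (List.suffix_cons _ _))
        have h2 := hx.length_le
        rw [this] at h2
        simp at h2
      simp only [h1, h2, hK, h3, h4] at ih ⊢
      simp at ih ⊢
      omega
    · simp only [h1, h2, hK] at ih ⊢
      simp at ih ⊢
      omega

open Classical in
noncomputable def jn (K : List β → Prop) (d : ℕ) (z : List β) : ℕ :=
  if h : HasSuf K z then rk K (Classical.choose h).dropLast else d

theorem Bifix.jn_eq (h : Bifix K d m) {x z : List β} (hx : x <:+ z) (hK : K x) :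
    jn K d z = rk K x.dropLast := by
  have hs : HasSuf K z := ⟨x, hx, hK⟩
  have hc := Classical.choose_spec hs
  have : Classical.choose hs = x := by
    rcases List.suffix_or_suffix_of_suffix hc.1 hx with h1 | h1
    · exact h.suf _ _ hc.2 hK h1
    · exact (h.suf _ _ hK hc.2 h1).symm
  rw [jn, dif_pos hs, this]

theorem jn_not {z : List β} (hz : ¬ HasSuf K z) : jn K d z = d := by
  rw [jn, dif_neg hz]

theorem Bifix.jn_le (h : Bifix K d m) (z : List β) : jn K d z ≤ d := by
  by_cases hz : HasSuf K z
  · obtain ⟨x, hx, hK⟩ := hz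
    rw [h.jn_eq hx hK]
    have h1 := rk_le K x.dropLast
    have h2 := h.len x hK
    simp only [List.length_dropLast] at h1
    omega
  · rw [jn_not hz]

theorem Bifix.mem_jn (h : Bifix K d m) : Mem d (jn K d) := by
  have key : ∀ z y : List β, d ≤ y.length → jn K d (z ++ y) = jn K d y := by
    intro z y hy
    by_cases hs : HasSuf K y
    · obtain ⟨x, hx, hK⟩ := hs
      rw [h.jn_eq hx hK, h.jn_eq (hx.trans (List.suffix_append _ _)) hK]
    · rw [jn_not hs, jn_not]
      rintro ⟨x, hx, hK⟩
      exact hs ⟨x, List.suffix_of_suffix_length_le hx (List.suffix_append _ _)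
        ((h.len x hK).trans hy), hK⟩
  intro z z' y hy
  rw [key z y hy, key z' y hy]

noncomputable def rπ (K : List β → Prop) (d : ℕ) (z : List β) (ρ : Fin (d + 1)) : Fin (d + 1) :=
  Fin.cycleRange ⟨min (jn K d z) d, by omega⟩ ρ

theorem rπ_inj (z : List β) : Function.Injective (rπ K d z) := Equiv.injective _

theorem Bifix.mem_rπ (h : Bifix K d m) : Mem d (rπ K d) := by
  intro z z' y hy
  funext ρ
  simp only [rπ, h.mem_jn z z' y hy]

theorem Bifix.rπ_val (h : Bifix K d m) (z : List β) (ρ : Fin (d + 1)) :
    (rπ K d z ρ).val =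
      if ρ.val < jn K d z then ρ.val + 1 else if ρ.val = jn K d z then 0 else ρ.val := by
  have hle := h.jn_le z
  unfold rπ
  split_ifs with h1 h2
  · rw [Fin.coe_cycleRange_of_lt (by rw [Fin.lt_def]; simp only; omega)]
  · rw [Fin.cycleRange_of_eq (by apply Fin.ext; simp only; omega)]; rfl
  · rw [Fin.cycleRange_of_gt (by rw [Fin.lt_def]; simp only; omega)]

open Classical in
noncomputable def nxt (K : List β → Prop) (d : ℕ) (s : List β) (b : β) : List β :=
  if K (s ++ [b]) ∨ (rk K s = d ∧ ¬ HasSuf K (s ++ [b])) then [] else s ++ [b]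

theorem Bifix.step (h : Bifix K d m) {s z : List β} (hs : s <:+ z) (hN : NoPre K s)
    {ρ : Fin (d + 1)} (hρ : ρ.val = rk K s) (b : β) :
    (rπ K d (z ++ [b]) ρ).val = rk K (nxt K d s b) ∧ NoPre K (nxt K d s b) ∧
      nxt K d s b <:+ z ++ [b] := by
  classical
  have hsb : s ++ [b] <:+ z ++ [b] := List.suffix_append_self_iff.2 hs
  refine ⟨?_, ?_, ?_⟩
  · have hc := h.rk_concat s b
    have hd := ρ.isLt
    rw [h.rπ_val, hρ]
    by_cases hz : HasSuf K (z ++ [b])
    · obtain ⟨x, hx, hK⟩ := hz
      have hle := h.jn_le (z ++ [b])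
      rw [h.jn_eq hx hK] at hle ⊢
      rcases List.suffix_concat_iff.1 hx with rfl | ⟨t, rfl, ht⟩
      · exact absurd hK h.ne
      rw [List.dropLast_concat] at hle ⊢
      by_cases hst : s = t
      · subst hst
        simp [nxt, hK, rk]
      · rcases List.suffix_or_suffix_of_suffix hs ht with h1 | h1
        · have h2 := rk_lt K h1 hst (h.noPre_of hK)
          have h3 : ¬ HasSuf K (s ++ [b]) := by
            rintro ⟨y, hy, hy'⟩
            have e := h.suf y _ hy' hK (hy.trans (List.suffix_append_self_iff.2 h1))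
            have l1 := hy.length_le
            rw [e] at l1
            apply hst
            apply h1.eq_of_length_le
            simpa using l1
          have h4 : ¬ K (s ++ [b]) := fun hk => h3 ⟨_, List.suffix_rfl, hk⟩
          have h5 : rk K s ≠ d := by omega
          rw [if_neg h3] at hc
          rw [if_pos h2, nxt, if_neg (by tauto)]
          omega
        · have h2 := rk_lt K h1 (Ne.symm hst) hN
          have h3 : HasSuf K (s ++ [b]) := ⟨_, List.suffix_append_self_iff.2 h1, hK⟩
          have h4 : ¬ K (s ++ [b]) := fun hk => by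
            have e := h.suf _ _ hK hk (List.suffix_append_self_iff.2 h1)
            exact hst (List.append_cancel_right e).symm
          rw [if_pos h3] at hc
          rw [if_neg (by omega), if_neg (by omega), nxt, if_neg (by tauto)]
          omega
    · have h3 : ¬ HasSuf K (s ++ [b]) := by
        rintro ⟨y, hy, hy'⟩
        exact hz ⟨y, hy.trans hsb, hy'⟩
      have h4 : ¬ K (s ++ [b]) := fun hk => h3 ⟨_, List.suffix_rfl, hk⟩
      rw [if_neg h3] at hc
      rw [jn_not hz]
      by_cases h5 : rk K s = d
      · rw [if_neg (by omega), if_pos h5, nxt, if_pos (by tauto)]; rfl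
      · rw [if_pos (by omega), nxt, if_neg (by tauto)]
        omega
  · unfold nxt
    split_ifs with h1
    · exact h.noPre_nil
    · exact (noPre_concat s b).2 ⟨hN, by tauto⟩
  · unfold nxt
    split_ifs with h1
    · exact List.nil_suffix
    · exact hsb

theorem Bifix.run_val (h : Bifix K d m) (v : List β) {s z : List β} (hs : s <:+ z)
    (hN : NoPre K s) {ρ : Fin (d + 1)} (hρ : ρ.val = rk K s) :
    (run (rπ K d) z ρ v).val = rk K (v.foldl (nxt K d) s) := by
  induction v generalizing s z ρ with
  | nil => exact hρ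
  | cons b v ih =>
    obtain ⟨h1, h2, h3⟩ := h.step hs hN hρ b
    rw [run_cons, List.foldl_cons]
    exact ih h3 h2 h1

theorem Bifix.run_zero (h : Bifix K d m) (z v : List β) :
    (run (rπ K d) z 0 v).val = rk K (v.foldl (nxt K d) []) :=
  h.run_val v List.nil_suffix h.noPre_nil rfl

theorem Bifix.foldl_pre (h : Bifix K d m) {x : List β} (hK : K x) (p : List β) (hp : p <+: x)
    (hne : p ≠ x) : p.foldl (nxt K d) [] = p := by
  induction p using List.reverseRecOn with
  | nil => rfl
  | append_singleton p b ih =>
    have hlt : (p ++ [b]).length < x.length :=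
      lt_of_le_of_ne hp.length_le (fun e => hne (hp.eq_of_length e))
    have h1 := h.len x hK
    have h2 := rk_le K p
    simp only [List.length_append, List.length_singleton] at hlt
    rw [List.foldl_append, ih ((List.prefix_append _ _).trans hp) (by rintro rfl; omega)]
    simp only [List.foldl_cons, List.foldl_nil, nxt]
    rw [if_neg]
    rintro (h3 | h3)
    · exact hne (h.pre _ _ h3 hK hp)
    · omega

theorem Bifix.run_mono (h : Bifix K d m) (u z : List β) (ρ : Fin (d + 1)) :
    (∃ i, 0 < i ∧ i ≤ u.length ∧ run (rπ K d) z ρ (u.take i) = 0) ∨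
      ρ.val ≤ (run (rπ K d) z ρ u).val := by
  induction u using List.reverseRecOn with
  | nil => right; rfl
  | append_singleton u b ih =>
    rcases ih with ⟨i, h1, h2, h3⟩ | ih
    · left
      exact ⟨i, h1, by simp; omega, by rwa [List.take_append_of_le_length h2]⟩
    · by_cases h0 : run (rπ K d) z ρ (u ++ [b]) = 0
      · left
        exact ⟨(u ++ [b]).length, by simp, le_rfl, by rwa [List.take_length]⟩
      · right
        rw [run_concat] at h0 ⊢
        have h1 := h.rπ_val (z ++ u ++ [b]) (run (rπ K d) z ρ u)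
        have h2 : (rπ K d (z ++ u ++ [b]) (run (rπ K d) z ρ u)).val ≠ 0 :=
          fun e => h0 (Fin.ext e)
        split_ifs at h1 <;> omega

theorem Bifix.ret (h : Bifix K d m) (j : ℕ) (z v : List β) (ρ : Fin (d + 1))
    (hj : d < ρ.val + j) (hv : j * m ≤ v.length) :
    ∃ i, 0 < i ∧ i ≤ j * m ∧ run (rπ K d) z ρ (v.take i) = 0 := by
  induction j generalizing z v ρ with
  | zero => have := ρ.isLt; omega
  | succ j ih =>
    rw [Nat.succ_mul] at hv ⊢
    obtain ⟨i, h1, h2, h3⟩ := h.ins z v (by omega)
    obtain ⟨u, b, hu⟩ : ∃ u b, v.take i = u ++ [b] := by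
      have : v.take i ≠ [] := by
        intro e
        have := congrArg List.length e
        simp only [List.length_take, List.length_nil] at this
        omega
      exact ⟨_, _, (List.dropLast_append_getLast this).symm⟩
    have hlen : u.length + 1 = i := by
      have := congrArg List.length hu
      simp only [List.length_take, List.length_append, List.length_singleton] at this
      omega
    rcases h.run_mono u z ρ with ⟨i', g1, g2, g3⟩ | hmono
    · refine ⟨i', g1, by omega, ?_⟩
      have : v.take i' = u.take i' := by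
        rw [← List.take_append_of_le_length (l₂ := [b]) g2, ← hu, List.take_take,
          min_eq_left (by omega)]
      rwa [this]
    · by_cases h0 : run (rπ K d) z ρ (v.take i) = 0
      · exact ⟨i, h1, by omega, h0⟩
      · have hlt : ρ.val < (run (rπ K d) z ρ (v.take i)).val := by
          have h2 : (run (rπ K d) z ρ (v.take i)).val ≠ 0 := fun e => h0 (Fin.ext e)
          rw [hu, ← List.append_assoc] at h3
          rw [hu, run_concat, h.rπ_val, jn_not h3] at h2 ⊢
          have := (run (rπ K d) z ρ u).isLt
          split_ifs at h2 ⊢ <;> omega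
        obtain ⟨i', g1, g2, g3⟩ := ih (z ++ v.take i) (v.drop i) (run (rπ K d) z ρ (v.take i))
          (by omega) (by simp only [List.length_drop]; omega)
        refine ⟨i + i', by omega, by omega, ?_⟩
        rw [List.take_add, run_append]
        exact g3

variable {W : (k : ℕ) → Set (Set (List (Fin k)))}

theorem Bifix.completion (hW : Closed W) [Finite β] [Nonempty β] (h : Bifix K d m) :
    ∃ M : List β → Prop, WW W M ∧ (∀ x y, M x → (M (x ++ y) ↔ M y)) ∧
      (∀ x y, M y → (M (x ++ y) ↔ M x)) ∧ (∀ x, K x → M x) ∧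
      (∀ x p, K x → p <+: x → p ≠ [] → p ≠ x → ¬ M p) ∧ (∀ x, ∃ y, M (x ++ y)) := by
  have hF : ∀ z v, run (rπ K d) z 0 v = run (rπ K d) [] 0 v := fun z v =>
    Fin.ext (by rw [h.run_zero, h.run_zero])
  refine ⟨fun w => run (rπ K d) [] 0 w = 0, ?_, ?_, ?_, ?_, ?_, ?_⟩
  · exact WW_of_thread hW h.mem_rπ rπ_inj 0 hF ((d + 1) * m)
      (fun w hw => h.ret (d + 1) [] w 0 (by simp) hw)
  · intro x y hx
    simp only at hx ⊢
    rw [run_append, hx, hF]
  · intro x y hy
    simp only at hy ⊢
    rw [run_append]
    constructor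
    · intro e
      apply run_inj rπ_inj ([] ++ x) y
      rw [e, hF, hy]
    · intro e
      rw [e, hF, hy]
  · intro x hK
    have hne : x ≠ [] := by rintro rfl; exact h.ne hK
    obtain ⟨u, b, rfl⟩ : ∃ u b, x = u ++ [b] := ⟨_, _, (List.dropLast_append_getLast hne).symm⟩
    apply Fin.ext
    rw [h.run_zero, List.foldl_append, h.foldl_pre hK u (List.prefix_append _ _) (by simp)]
    simp [nxt, hK, rk]
  · intro x p hK hp hne hne' e
    have h1 := congrArg Fin.val e
    rw [h.run_zero, h.foldl_pre hK p hp hne'] at h1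
    have h2 : NoPre K p := fun y hy hy' => by
      have e := h.pre y x hy' hK (hy.trans hp)
      subst e
      exact hne' (hp.eq_of_length_le hy.length_le)
    have h3 := rk_lt K (List.nil_suffix (l := p)) (Ne.symm hne) h2
    simp only [Fin.val_zero] at h1
    omega
  · intro x
    obtain ⟨b⟩ := ‹Nonempty β›
    obtain ⟨i, _, _, g⟩ := h.ret (d + 1) ([] ++ x) (List.replicate ((d + 1) * m) b)
      (run (rπ K d) [] 0 x) (by omega) (by simp)
    exact ⟨_, (run_append _ _ _ _ _).trans g⟩

end

end Pool.Agent.MP_df6b17_lc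

end

section

/-!
Systems with several cut states are simulated by a finite maximal bifix code over a larger
alphabet.
-/

set_option autoImplicit false

namespace Pool.Agent.MP_df6b17_lc

section
variable {α Ω : Type}

/-- a system of threads with cut states `Q` -/
structure Cut (π : List α → Ω → Ω) (Q : Ω → Prop) (lam : ℕ) : Prop where
  inj : ∀ z, Function.Injective (π z)
  forget : ∀ q, Q q → ∀ z v, run π z q v = run π [] q v
  ret : ∀ z ω (v : List α), lam ≤ v.length → ∃ i, 0 < i ∧ i ≤ lam ∧ Q (run π z ω (v.take i))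

def mrk (α : Type) (N : ℕ) : List (α ⊕ Fin (N + 1)) := (List.finRange (N + 1)).map Sum.inr

def ψ (N : ℕ) (a : α) : List (α ⊕ Fin (N + 1)) := Sum.inl a :: mrk α N

def enc (N : ℕ) (i : ℕ) (w : List α) (a : α) (j : ℕ) : List (α ⊕ Fin (N + 1)) :=
  (mrk α N).drop (i + 1) ++ w.flatMap (ψ N) ++ Sum.inl a :: (mrk α N).take (j + 1)

def strip {β : Type} (x : List (α ⊕ β)) : List α := x.filterMap Sum.getLeft?

@[simp] theorem mrk_length (N : ℕ) : (mrk α N).length = N + 1 := by simp [mrk]

theorem strip_sub {N : ℕ} {x : List (α ⊕ Fin (N + 1))} (h : x.Sublist (mrk α N)) :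
    strip x = [] := by
  have h1 : strip (mrk α N) = [] := by simp [strip, mrk]
  have h2 : (strip x).Sublist (strip (mrk α N)) := h.filterMap _
  rw [h1] at h2
  simpa using h2

theorem strip_append {β : Type} (x y : List (α ⊕ β)) : strip (x ++ y) = strip x ++ strip y := by
  simp [strip]

theorem strip_inl {β : Type} (a : α) (y : List (α ⊕ β)) : strip (Sum.inl a :: y) = a :: strip y := by
  simp [strip]

theorem strip_flatMap (N : ℕ) (w : List α) : strip (w.flatMap (ψ N)) = w := by
  induction w with
  | nil => rfl
  | cons a w ih =>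
    rw [List.flatMap_cons, strip_append, ih, ψ, strip_inl, strip_sub (List.Sublist.refl _)]
    rfl

theorem strip_enc (N i : ℕ) (w : List α) (a : α) (j : ℕ) : strip (enc N i w a j) = w ++ [a] := by
  rw [enc, strip_append, strip_append, strip_inl, strip_flatMap,
    strip_sub (List.drop_sublist _ _), strip_sub (List.take_sublist _ _)]
  simp

theorem enc_head {N i : ℕ} (hi : i < N) (w : List α) (a : α) (j : ℕ) :
    (enc N i w a j).head? = some (Sum.inr ⟨i + 1, by omega⟩) := by
  have : ((mrk α N).drop (i + 1)).head? = some (Sum.inr ⟨i + 1, by omega⟩) := by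
    rw [List.head?_drop]
    simp [mrk, hi]
  rw [enc, List.append_assoc, List.head?_append, this]
  rfl

theorem enc_last {N j : ℕ} (hj : j < N) (i : ℕ) (w : List α) (a : α) :
    (enc N i w a j).getLast? = some (Sum.inr ⟨j, by omega⟩) := by
  have : ((mrk α N).take (j + 1)).getLast? = some (Sum.inr ⟨j, by omega⟩) := by
    rw [List.getLast?_take]
    have : j < N + 1 := by omega
    simp [mrk, this]
  rw [enc, List.getLast?_append, ← List.singleton_append, List.getLast?_append, this]
  rfl

theorem enc_split (N i j k : ℕ) (w₁ w₂ : List α) (a₁ a₂ : α) :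
    enc N i (w₁ ++ [a₁] ++ w₂) a₂ k = enc N i w₁ a₁ j ++ enc N j w₂ a₂ k := by
  simp only [enc, List.flatMap_append, List.flatMap_cons, List.nil_append, ψ,
    List.append_assoc, List.cons_append]
  rw [← List.append_assoc (List.take _ _), List.take_append_drop]

theorem enc_full (N i j : ℕ) (w : List α) (a : α) :
    (mrk α N).drop (i + 1) ++ (w ++ [a]).flatMap (ψ N) = enc N i w a j ++ (mrk α N).drop (j + 1) := by
  simp only [enc, List.flatMap_append, List.flatMap_cons, List.flatMap_nil, List.append_nil, ψ,
    List.append_assoc, List.cons_append, List.take_append_drop]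

theorem enc_length (N i j : ℕ) (w : List α) (a : α) :
    (enc N i w a j).length ≤ (N + 1) + (w.length + 1) * (N + 2) := by
  have : (w.flatMap (ψ N)).length = w.length * (N + 2) := by
    induction w with
    | nil => simp
    | cons b w ih => rw [List.flatMap_cons, List.length_append, ih]; simp [ψ]; ring
  simp only [enc, List.length_append, this, List.length_drop, mrk_length, List.length_cons,
    List.length_take]
  have : (w.length + 1) * (N + 2) = w.length * (N + 2) + (N + 2) := by ring
  omega

variable {π : List α → Ω → Ω} {Q : Ω → Prop} {lam : ℕ}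

/-- first return -/
def FR (π : List α → Ω → Ω) (Q : Ω → Prop) (q : Ω) (v : List α) : Prop :=
  Q q ∧ Q (run π [] q v) ∧ ∀ p, p <+: v → p ≠ [] → p ≠ v → ¬ Q (run π [] q p)

theorem first_ret {q : Ω} (hq : Q q) {v : List α} {i : ℕ} (hi : 0 < i) (hi' : i ≤ v.length)
    (h : Q (run π [] q (v.take i))) :
    ∃ w a, w ++ [a] <+: v ∧ w.length + 1 ≤ i ∧ FR π Q q (w ++ [a]) := by
  classical
  have hex : ∃ i, 0 < i ∧ Q (run π [] q (v.take i)) := ⟨i, hi, h⟩
  have h1 := Nat.find_spec hex
  have h2 : Nat.find hex ≤ i := Nat.find_min' hex ⟨hi, h⟩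
  have hne : v.take (Nat.find hex) ≠ [] := by
    intro e
    have := congrArg List.length e
    simp only [List.length_take, List.length_nil] at this
    omega
  obtain ⟨w, a, hw⟩ : ∃ w a, v.take (Nat.find hex) = w ++ [a] :=
    ⟨_, _, (List.dropLast_append_getLast hne).symm⟩
  have hlen := congrArg List.length hw
  simp only [List.length_take, List.length_append, List.length_singleton] at hlen
  refine ⟨w, a, hw ▸ List.take_prefix _ _, by omega, hq, hw ▸ h1.2, ?_⟩
  intro p hp hp1 hp2 hQ
  have hlt : p.length < (w ++ [a]).length :=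
    lt_of_le_of_ne hp.length_le (fun e => hp2 (hp.eq_of_length e))
  simp only [List.length_append, List.length_singleton] at hlt
  have hp' : p <+: v := hp.trans (hw ▸ List.take_prefix _ _)
  rw [List.prefix_iff_eq_take.1 hp'] at hQ
  exact Nat.find_min hex (by omega) ⟨List.length_pos_iff.2 hp1, hQ⟩

theorem Cut.FR_len (h : Cut π Q lam) {q : Ω} {v : List α} (hv : FR π Q q v) : v.length ≤ lam := by
  by_contra hlt
  obtain ⟨i, h1, h2, h3⟩ := h.ret [] q v (by omega)
  refine hv.2.2 _ (List.take_prefix _ _) ?_ ?_ h3
  · intro e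
    have := congrArg List.length e
    simp only [List.length_take, List.length_nil] at this
    omega
  · intro e
    have := congrArg List.length e
    simp only [List.length_take] at this
    omega

theorem Cut.exists_FR (h : Cut π Q lam) {q : Ω} (hq : Q q) (v : List α) (hv : lam ≤ v.length) :
    ∃ w a, w ++ [a] <+: v ∧ FR π Q q (w ++ [a]) := by
  obtain ⟨i, h1, h2, h3⟩ := h.ret [] q v hv
  obtain ⟨w, a, g1, _, g2⟩ := first_ret hq h1 (by omega) h3
  exact ⟨w, a, g1, g2⟩

/-- the kernel code -/
def KK (π : List α → Ω → Ω) (Q : Ω → Prop) (N : ℕ) (ix : Ω → ℕ) (x : List (α ⊕ Fin (N + 1))) :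
    Prop :=
  ∃ q w a, FR π Q q (w ++ [a]) ∧ x = enc N (ix q) w a (ix (run π [] q (w ++ [a])))

theorem Cut.bifix (h : Cut π Q lam) {N : ℕ} {ix : Ω → ℕ} (hix : Function.Injective ix)
    (hN : ∀ ω, ix ω < N) : Bifix (KK π Q N ix) ((N + 1) + lam * (N + 2)) (N + 1) where
  ne := by
    rintro ⟨q, w, a, _, e⟩
    have := congrArg strip e
    rw [strip_enc] at this
    simp [strip] at this
  pre := by
    rintro x y ⟨q, w, a, hF, rfl⟩ ⟨q', w', a', hF', rfl⟩ hp
    have h1 : w ++ [a] <+: w' ++ [a'] := by
      have := hp.filterMap Sum.getLeft?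
      rwa [← strip, ← strip, strip_enc, strip_enc] at this
    have h2 : q = q' := by
      obtain ⟨t, ht⟩ := hp
      have := congrArg List.head? ht
      rw [List.head?_append, enc_head (hN _), enc_head (hN _)] at this
      simp only [Option.some_or, Option.some.injEq, Sum.inr.injEq, Fin.mk.injEq] at this
      exact hix (by omega)
    subst h2
    have h3 : w ++ [a] = w' ++ [a'] := by
      by_contra hne
      exact hF'.2.2 _ h1 (by simp) hne hF.2.1
    obtain ⟨rfl, e⟩ := List.append_inj' h3 rfl
    obtain rfl : a = a' := by simpa using e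
    rfl
  suf := by
    rintro x y ⟨q, w, a, hF, rfl⟩ ⟨q', w', a', hF', rfl⟩ hp
    have h1 : w ++ [a] <:+ w' ++ [a'] := by
      have := hp.filterMap Sum.getLeft?
      rwa [← strip, ← strip, strip_enc, strip_enc] at this
    have h2 : run π [] q (w ++ [a]) = run π [] q' (w' ++ [a']) := by
      obtain ⟨t, ht⟩ := hp
      have := congrArg List.getLast? ht
      rw [List.getLast?_append, enc_last (hN _), enc_last (hN _)] at this
      simp only [Option.some_or, Option.some.injEq, Sum.inr.injEq, Fin.mk.injEq] at this
      exact hix this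
    obtain ⟨t, ht⟩ := h1
    have h3 : q = run π [] q' t := by
      rw [← ht, run_append π [] q' t, ← h.forget q hF.1 ([] ++ t)] at h2
      exact run_inj h.inj _ _ h2
    have h4 : t = [] := by
      by_contra hne
      refine hF'.2.2 t ⟨_, ht⟩ hne ?_ (h3 ▸ hF.1)
      intro e
      have := congrArg List.length ht
      rw [e] at this
      simp at this
    subst h4
    obtain rfl : q = q' := h3
    rw [List.nil_append] at ht
    obtain ⟨rfl, e⟩ := List.append_inj' ht rfl
    obtain rfl : a = a' := by simpa using e
    rfl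
  len := by
    rintro x ⟨q, w, a, hF, rfl⟩
    have h1 := h.FR_len hF
    simp only [List.length_append, List.length_singleton] at h1
    exact (enc_length _ _ _ _ _).trans (by gcongr)
  ins := by
    intro z v hv
    by_cases hex : ∃ i, ∃ hi : i < N + 1, ∃ a, v[i]'(by omega) = Sum.inl a
    · obtain ⟨i, hi, a, ha⟩ := hex
      refine ⟨i + 1, by omega, by omega, ?_⟩
      rintro ⟨x, ⟨t, ht⟩, q, w, b, _, rfl⟩
      have := congrArg List.getLast? ht
      rw [List.getLast?_append, enc_last (hN _), List.getLast?_append, List.getLast?_take] at this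
      have hi' : i < v.length := by omega
      simp [List.getElem?_eq_getElem hi', ha] at this
    · refine ⟨N + 1, by omega, le_rfl, ?_⟩
      rintro ⟨x, hx, q, w, b, _, rfl⟩
      have h1 : Sum.inl b :: (mrk α N).take (ix (run π [] q (w ++ [b])) + 1) <:+
          z ++ v.take (N + 1) := (List.suffix_append _ _).trans hx
      have h2 := List.suffix_of_suffix_length_le h1 (List.suffix_append _ _) (by
        have := hN (run π [] q (w ++ [b]))
        simp only [List.length_cons, List.length_take, mrk_length]
        omega)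
      have h3 : Sum.inl b ∈ v.take (N + 1) := h2.subset (by simp)
      obtain ⟨i, hi, e⟩ := List.mem_take_iff_getElem.1 h3
      exact hex ⟨i, by omega, b, e⟩

variable {W : (k : ℕ) → Set (Set (List (Fin k)))}

theorem Cut.WW_run (hW : Closed W) [Finite α] [Finite Ω] (h : Cut π Q lam) {q q' : Ω}
    (hq : Q q) (hq' : Q q') : WW W (fun w => run π [] q w = q') := by
  let N := Nat.card Ω
  let ix : Ω → ℕ := fun ω => (Finite.equivFin Ω ω).val
  have hix : Function.Injective ix := fun a b e => (Finite.equivFin Ω).injective (Fin.ext e)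
  have hN : ∀ ω, ix ω < N := fun ω => (Finite.equivFin Ω ω).isLt
  obtain ⟨M, hM, hR, hL, hK, hP, hE⟩ := (h.bifix hix hN).completion hW
  have fwd : ∀ n (w : List α) a q, w.length = n → Q q → Q (run π [] q (w ++ [a])) →
      M (enc N (ix q) w a (ix (run π [] q (w ++ [a])))) := by
    intro n
    induction n using Nat.strong_induction_on with
    | _ n ih =>
      intro w a q hn hq hq'
      obtain ⟨w₁, a₁, g1, _, g2⟩ := first_ret (π := π) hq (v := w ++ [a])
        (i := (w ++ [a]).length) (by simp) le_rfl (by rwa [List.take_length])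
      rcases List.prefix_concat_iff.1 g1 with e | ⟨w₂, rfl⟩
      · obtain ⟨rfl, e⟩ := List.append_inj' e rfl
        obtain rfl : a₁ = a := by simpa using e
        exact hK _ ⟨q, _, _, g2, rfl⟩
      · have e : run π [] q (w₁ ++ [a₁] ++ w₂ ++ [a]) =
            run π [] (run π [] q (w₁ ++ [a₁])) (w₂ ++ [a]) := by
          rw [List.append_assoc (w₁ ++ [a₁]), run_append, h.forget _ g2.2.1]
        rw [enc_split _ _ (ix (run π [] q (w₁ ++ [a₁]))), hR _ _ (hK _ ⟨q, _, _, g2, rfl⟩), e]
        exact ih w₂.length (by simp at hn; omega) _ _ _ rfl g2.2.1 (e ▸ hq')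
  have hne : ∀ i (w : List α) a j, enc N i w a j ≠ [] := by
    intro i w a j e
    have := congrArg strip e
    rw [strip_enc] at this
    simp [strip] at this
  have same : ∀ (w : List α) a q q', FR π Q q (w ++ [a]) → M (enc N (ix q) w a (ix q')) →
      run π [] q (w ++ [a]) = q' := by
    intro w a q q' g2 hM
    have hK1 : KK π Q N ix _ := ⟨q, _, _, g2, rfl⟩
    rcases lt_trichotomy (ix q') (ix (run π [] q (w ++ [a]))) with l | l | l
    · exfalso
      refine hP _ _ hK1 ?_ (hne _ _ _ _) ?_ hM
      · unfold enc
        rw [List.prefix_append_right_inj, List.prefix_cons_inj]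
        exact List.take_prefix_take_left (by omega)
      · intro e
        have := congrArg List.getLast? e
        rw [enc_last (hN _), enc_last (hN _)] at this
        simp only [Option.some.injEq, Sum.inr.injEq, Fin.mk.injEq] at this
        omega
    · exact (hix l).symm
    · exfalso
      obtain ⟨k, hk⟩ : ∃ k, ix q' = ix (run π [] q (w ++ [a])) + (k + 1) :=
        ⟨ix q' - ix (run π [] q (w ++ [a])) - 1, by omega⟩
      have e : enc N (ix q) w a (ix q') =
          enc N (ix q) w a (ix (run π [] q (w ++ [a]))) ++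
            ((mrk α N).drop (ix (run π [] q (w ++ [a])) + 1)).take (k + 1) := by
        simp only [enc, List.append_assoc, List.cons_append]
        rw [← List.take_add, hk]
        congr 4
        omega
      rw [e, hR _ _ (hK _ hK1)] at hM
      obtain ⟨w₃, a₃, _, g3⟩ := h.exists_FR g2.2.1 (List.replicate lam a) (by simp)
      refine hP _ _ ⟨_, _, _, g3, rfl⟩ ?_ ?_ ?_ hM
      · unfold enc
        rw [List.append_assoc]
        exact (List.take_prefix _ _).trans (List.prefix_append _ _)
      · intro e
        have := congrArg List.length e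
        have h5 := hN q'
        simp only [List.length_take, List.length_drop, mrk_length, List.length_nil] at this
        omega
      · intro e
        have := congrArg strip e
        rw [strip_enc, strip_sub ((List.take_sublist _ _).trans (List.drop_sublist _ _))]
          at this
        simp at this
  have bwd : ∀ n (w : List α) a q q', w.length = n → Q q → M (enc N (ix q) w a (ix q')) →
      run π [] q (w ++ [a]) = q' := by
    intro n
    induction n using Nat.strong_induction_on with
    | _ n ih =>
      intro w a q q' hn hq hM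
      obtain ⟨w₁, a₁, g1, g2⟩ := h.exists_FR hq (w ++ [a] ++ List.replicate lam a)
        (by simp; omega)
      have hK1 : KK π Q N ix _ := ⟨q, _, _, g2, rfl⟩
      rcases List.prefix_or_prefix_of_prefix g1 (List.prefix_append _ _) with g | g
      · rcases List.prefix_concat_iff.1 g with e | ⟨w₂, rfl⟩
        · rw [← e]
          obtain ⟨rfl, e⟩ := List.append_inj' e rfl
          obtain rfl : a₁ = a := by simpa using e
          exact same _ _ _ _ g2 hM
        · rw [enc_split _ _ (ix (run π [] q (w₁ ++ [a₁]))), hR _ _ (hK _ hK1)] at hM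
          rw [List.append_assoc (w₁ ++ [a₁]), run_append, h.forget _ g2.2.1]
          exact ih w₂.length (by simp at hn; omega) _ _ _ _ rfl g2.2.1 hM
      · rcases List.prefix_concat_iff.1 g with e | ⟨w₂, rfl⟩
        · obtain ⟨rfl, e⟩ := List.append_inj' e rfl
          obtain rfl : a = a₁ := by simpa using e
          exact same _ _ _ _ g2 hM
        · exfalso
          refine hP _ _ hK1 ?_ (hne _ _ _ _) ?_ hM
          · rw [enc_split _ _ (ix q')]
            exact List.prefix_append _ _
          · intro e
            have := congrArg strip e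
            rw [strip_enc, strip_enc] at this
            have := congrArg List.length this
            simp at this
  obtain ⟨y, hy⟩ := hE ((mrk α N).drop (ix q' + 1))
  refine (((hM.right hW y).left hW ((mrk α N).drop (ix q + 1))).inv hW (ψ N)
    (fun a => by simp [ψ])).congr (fun v hv => ?_)
  obtain ⟨w, a, rfl⟩ : ∃ w a, v = w ++ [a] := ⟨_, _, (List.dropLast_append_getLast hv).symm⟩
  rw [enc_full _ _ (ix q'), List.append_assoc, hL _ _ hy]
  constructor
  · exact bwd _ _ _ _ _ rfl hq
  · rintro rfl
    exact fwd _ _ _ _ rfl hq hq'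

theorem Cut.rec_run (hW : Closed W) [Finite α] [Nonempty α] [Finite Ω] (h : Cut π Q lam) {μ : ℕ}
    (hμ : Mem μ π) (h0 y0 : List α) (hh : lam ≤ h0.length) (hy : μ ≤ y0.length) :
    Rec W (fun w => fun ω => run π [] ω (h0 ++ w ++ y0)) := by
  obtain ⟨a⟩ := ‹Nonempty α›
  have key : Rec W (fun w (t : Ω × Fin (lam + 1) × Fin (lam + 1) × Ω) =>
      Q t.1 ∧ Q t.2.2.2 ∧ run π [] t.1 (h0.drop t.2.1 ++ (w ++ (y0 ++
        (List.replicate lam a).take t.2.2.1))) = t.2.2.2) := by
    refine Rec_pi hW (fun t => Rec_of_WW hW ?_)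
    by_cases h1 : Q t.1 ∧ Q t.2.2.2
    · exact (((h.WW_run hW h1.1 h1.2).left hW (h0.drop t.2.1)).right hW
        (y0 ++ (List.replicate lam a).take t.2.2.1)).congr (fun w _ => by simp only [h1, true_and])
    · exact (WW_false hW).congr (fun w _ => by tauto)
  refine key.determined (fun w w' _ _ e => ?_)
  funext ω
  obtain ⟨i, _, hi, hq⟩ := h.ret [] ω h0 hh
  have e1 : ∀ v, run π [] ω (h0 ++ v) = run π [] (run π [] ω (h0.take i)) (h0.drop i ++ v) := by
    intro v
    conv_lhs => rw [← List.take_append_drop i h0, List.append_assoc, run_append]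
    exact h.forget _ hq _ _
  obtain ⟨j, _, hj, hq'⟩ := h.ret ([] ++ (h0 ++ w ++ y0)) (run π [] ω (h0 ++ w ++ y0))
    (List.replicate lam a) (by simp)
  rw [← run_append] at hq'
  have e2 := congrFun e (run π [] ω (h0.take i), ⟨i, by omega⟩, ⟨j, by omega⟩,
    run π [] ω (h0 ++ w ++ y0 ++ (List.replicate lam a).take j))
  simp only [← e1, eq_iff_iff] at e2
  have e3 := (e2.1 ⟨hq, hq', by simp only [List.append_assoc]⟩).2.2
  simp only [← List.append_assoc] at e3
  rw [run_append π [] ω (h0 ++ w' ++ y0), run_append π [] ω (h0 ++ w ++ y0), List.nil_append,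
    List.nil_append, run_mem hμ _ (h0 ++ w) y0 hy] at e3
  exact (run_inj h.inj _ _ e3).symm

end

end Pool.Agent.MP_df6b17_lc

end

section

/-!
A reversible register machine which, along every text, at some time either has predicted or has
recorded a whole round of the text; it is used to force a group element through the identity.
-/

set_option autoImplicit false

namespace Pool.Agent.MP_df6b17_lc

theorem bernoulli_aux (s J : ℕ) : s ^ J * (s + J) ≤ (s + 1) ^ J * s := by
  induction J with
  | zero => simp
  | succ J ih =>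
    calc s ^ (J + 1) * (s + (J + 1)) = s ^ J * (s * (s + J + 1)) := by ring
      _ ≤ s ^ J * ((s + J) * (s + 1)) := Nat.mul_le_mul_left _ (by nlinarith)
      _ = s ^ J * (s + J) * (s + 1) := by ring
      _ ≤ (s + 1) ^ J * s * (s + 1) := Nat.mul_le_mul_right _ ih
      _ = (s + 1) ^ (J + 1) * s := by ring

theorem bernoulli (s : ℕ) : s ^ (s * s) * (s + 1) ≤ (s + 1) ^ (s * s) := by
  rcases Nat.eq_zero_or_pos s with rfl | hs
  · simp
  · have := bernoulli_aux s (s * s)
    apply Nat.le_of_mul_le_mul_right _ hs
    calc s ^ (s * s) * (s + 1) * s = s ^ (s * s) * (s + s * s) := by ring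
      _ ≤ _ := this

theorem exists_compress (R : Type) [Finite R] (c : R) :
    ∃ (J : ℕ) (Φ : Equiv.Perm ((Fin J → R) × R)), ∀ u, (∀ j, u.1 j ≠ c) → (Φ u).2 = c := by
  classical
  have := Fintype.ofFinite R
  obtain ⟨s, hs⟩ : ∃ s, Fintype.card R = s + 1 :=
    ⟨Fintype.card R - 1, by have := Fintype.card_pos_iff.2 ⟨c⟩; omega⟩
  have hc : Fintype.card {r : R // r ≠ c} = s := by
    simp [Fintype.card_subtype_compl, hs]
  obtain ⟨e⟩ : Nonempty (((Fin (s * s) → {r : R // r ≠ c}) × R) ↪ (Fin (s * s) → R)) := by
    apply Function.Embedding.nonempty_of_card_le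
    simp only [Fintype.card_prod, Fintype.card_pi, Finset.prod_const, Finset.card_univ,
      Fintype.card_fin, hc, hs]
    exact bernoulli s
  obtain ⟨Φ, hΦ⟩ := Equiv.Perm.exists_extending_pair
    (f := fun x : (Fin (s * s) → {r : R // r ≠ c}) × R => ((fun j => (x.1 j).1, x.2) :
      (Fin (s * s) → R) × R))
    (g := fun x => (e x, c))
    (by
      rintro ⟨a, b⟩ ⟨a', b'⟩ h
      simp only [Prod.mk.injEq] at h ⊢
      exact ⟨funext fun j => Subtype.ext (congrFun h.1 j), h.2⟩)
    (by
      intro x y h
      exact e.injective (congrArg Prod.fst h))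
  refine ⟨s * s, Φ, fun u hu => ?_⟩
  have := hΦ (fun j => ⟨u.1 j, hu j⟩, u.2)
  exact congrArg Prod.snd this

section
variable {A G : Type} [Group G]

def headP (Γ : A → A → G) (c : ℕ → A) : ℕ → G
  | 0 => 1
  | i + 1 => headP Γ c i * Γ (c i) (c (i + 1))

def tailP (Γ : A → A → G) (c : ℕ → A) : ℕ → ℕ → G
  | 0, _ => 1
  | n + 1, i => Γ (c i) (c (i + 1)) * tailP Γ c n (i + 1)

theorem headP_congr (Γ : A → A → G) {c c' : ℕ → A} (i : ℕ) (h : ∀ s ≤ i, c s = c' s) :
    headP Γ c i = headP Γ c' i := by
  induction i with
  | zero => rfl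
  | succ i ih =>
    simp only [headP]
    rw [ih (fun s hs => h s (by omega)), h i (by omega), h (i + 1) le_rfl]

theorem tailP_congr (Γ : A → A → G) {c c' : ℕ → A} (n i : ℕ)
    (h : ∀ s, i ≤ s → s ≤ i + n → c s = c' s) : tailP Γ c n i = tailP Γ c' n i := by
  induction n generalizing i with
  | zero => rfl
  | succ n ih =>
    simp only [tailP]
    rw [ih (i + 1) (fun s h1 h2 => h s (by omega) (by omega)), h i le_rfl (by omega),
      h (i + 1) (by omega) (by omega)]

theorem kill (L : ℕ) (z : ℕ → G) (hz : ∀ g, ∃ i < L, z i = g) (f g x : ℕ → G)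
    (hf : ∀ i, i + 1 < L → f (i + 1) = f i * g (i + 1))
    (hx : ∀ i < L, x (i + 1) = (g i)⁻¹ * x i * g i * ((f i)⁻¹ * ((z (i - 1))⁻¹ * z i) * f i)) :
    ∃ i < L, x (i + 1) = 1 := by
  have key : ∀ i < L, f i * x (i + 1) * (f i)⁻¹ = f 0 * x 1 * (f 0)⁻¹ * (z 0)⁻¹ * z i := by
    intro i
    induction i with
    | zero => intro _; group
    | succ i ih =>
      intro hi
      have h1 := ih (by omega)
      rw [hx (i + 1) hi, Nat.add_sub_cancel]
      calc _ = (f (i + 1) * (g (i + 1))⁻¹) * x (i + 1) * (f (i + 1) * (g (i + 1))⁻¹)⁻¹ *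
            ((z i)⁻¹ * z (i + 1)) := by group
        _ = f i * x (i + 1) * (f i)⁻¹ * ((z i)⁻¹ * z (i + 1)) := by rw [hf i hi]; group
        _ = _ := by rw [h1]; group
  obtain ⟨i, hi, e⟩ := hz (z 0 * (f 0 * x 1 * (f 0)⁻¹)⁻¹)
  refine ⟨i, hi, ?_⟩
  have h1 := key i hi
  rw [e] at h1
  calc x (i + 1) = (f i)⁻¹ * (f i * x (i + 1) * (f i)⁻¹) * f i := by group
    _ = 1 := by rw [h1]; group

open Classical in
noncomputable def rop (o : A) {L : ℕ} (i : ℕ) (b : A) (r : Fin L → A) : Fin L → A :=
  fun s => if s.val = i then Equiv.swap b o (r s) else r s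

theorem rop_inj (o : A) {L : ℕ} (i : ℕ) (b : A) :
    Function.Injective (rop o i b : (Fin L → A) → (Fin L → A)) := by
  intro r r' h
  funext s
  have := congrFun h s
  simp only [rop] at this
  split_ifs at this
  · exact Equiv.injective _ this
  · exact this

open Classical in
theorem rop_seq (o : A) {L : ℕ} (b : ℕ → A) (r : ℕ → Fin L → A)
    (h : ∀ i < L, r (i + 1) = rop o i (b i) (r i)) (i : ℕ) (hi : i ≤ L) (s : Fin L) :
    r i s = if s.val < i then Equiv.swap (b s) o (r 0 s) else r 0 s := by
  induction i with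
  | zero => simp
  | succ i ih =>
    rw [h i hi, rop, ih (by omega)]
    by_cases h1 : s.val = i
    · simp [h1]
    · by_cases h2 : s.val < i
      · simp [h1, h2, show s.val < i + 1 by omega]
      · simp [h1, h2, show ¬ s.val < i + 1 by omega]

def rext (o : A) {L : ℕ} (r : Fin L → A) (i : ℕ) : A := if h : i < L then r ⟨i, h⟩ else o

theorem oracle [Finite A] [Finite G] (o : A) (Γ : A → A → G) :
    ∃ (U : Type) (_ : Finite U) (_ : Nonempty U) (T : ℕ) (κ : ℕ → A → U → U)
      (β : ℕ → A → U → G), 0 < T ∧ (∀ k b, Function.Injective (κ k b)) ∧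
      ∀ (B : ℕ → A) (g x : ℕ → G) (u : ℕ → U),
        (∀ k, k + 1 < T → g (k + 1) = Γ (B k) (B (k + 1))) →
        (∀ k < T, x (k + 1) = (g k)⁻¹ * x k * g k * β k (B k) (u k)) →
        (∀ k < T, u (k + 1) = κ k (B k) (u k)) →
        ∃ k, 0 < k ∧ k ≤ T ∧ x k = 1 := by
  classical
  obtain ⟨L, z, hL, hz⟩ : ∃ (L : ℕ) (z : ℕ → G), 0 < L ∧ ∀ g, ∃ i < L, z i = g :=
    ⟨Nat.card G, rext 1 (Finite.equivFin G).symm, Nat.card_pos, fun g =>
      ⟨(Finite.equivFin G g).val, (Finite.equivFin G g).isLt, by simp [rext]⟩⟩
  obtain ⟨J, Φ, hΦ⟩ := exists_compress (Fin L → A) (fun _ => o)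
  let κ : ℕ → A → (Fin J → Fin L → A) × (Fin L → A) → (Fin J → Fin L → A) × (Fin L → A) :=
    fun k b u => if k < J * L then
      (fun j => if j.val = k / L then rop o (k % L) b (u.1 j) else u.1 j, u.2)
      else Φ.symm ((Φ u).1, rop o (k % L) b (Φ u).2)
  let F : ℕ → A → (Fin J → Fin L → A) × (Fin L → A) → G :=
    fun k b u => if k < J * L then
      (tailP Γ (rext o (rext (fun _ => o) u.1 (k / L))) (L - 1 - k % L) (k % L))⁻¹
      else headP Γ (rext o (rop o (k % L) b (Φ u).2)) (k % L)
  refine ⟨(Fin J → Fin L → A) × (Fin L → A), inferInstance, ⟨(fun _ _ => o, fun _ => o)⟩,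
    J * L + L, κ, fun k b u => (F k b u)⁻¹ * ((z (k % L - 1))⁻¹ * z (k % L)) * F k b u,
    by omega, ?_, ?_⟩
  · intro k b u u' h
    simp only [κ] at h
    split_ifs at h
    · simp only [Prod.mk.injEq] at h
      refine Prod.ext (funext fun j => ?_) h.2
      have := congrFun h.1 j
      split_ifs at this
      · exact rop_inj _ _ _ this
      · exact this
    · have h1 := Φ.symm.injective h
      simp only [Prod.mk.injEq] at h1
      exact Φ.injective (Prod.ext h1.1 (rop_inj _ _ _ h1.2))
  · intro B g x u hg hx hu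
    have hdiv : ∀ j i, i < L → (j * L + i) / L = j := fun j i hi => by
      rw [Nat.add_comm, Nat.add_mul_div_right _ _ hL, Nat.div_eq_of_lt hi, Nat.zero_add]
    have hmod : ∀ j i, i < L → (j * L + i) % L = i := fun j i hi => by
      rw [Nat.add_comm, Nat.add_mul_mod_self_right, Nat.mod_eq_of_lt hi]
    by_cases hex : ∃ j : Fin J, (u (j.val * L + L)).1 j = fun _ => o
    · obtain ⟨j, hj⟩ := hex
      have hjL : j.val * L + L ≤ J * L := by
        rw [← Nat.succ_mul]; exact Nat.mul_le_mul_right _ j.isLt
      have hseq := rop_seq o (fun i => B (j.val * L + i)) (fun i => (u (j.val * L + i)).1 j) (by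
        intro i hi
        rw [← Nat.add_assoc, hu _ (by omega)]
        simp only [κ, if_pos (show j.val * L + i < J * L by omega), hdiv _ _ hi, hmod _ _ hi,
          if_true])
      have hv : ∀ s : Fin L, (u (j.val * L)).1 j s = B (j.val * L + s) := by
        intro s
        have h1 := hseq L le_rfl s
        simp only [hj, s.isLt, if_true, Nat.add_zero] at h1
        have h2 := congrArg (Equiv.swap (B (j.val * L + s)) o) h1
        simpa using h2.symm
      obtain ⟨i, hi, e⟩ := kill L z hz
        (fun i => (tailP Γ (fun s => B (j.val * L + s)) (L - 1 - i) i)⁻¹)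
        (fun i => g (j.val * L + i)) (fun i => x (j.val * L + i)) (by
          intro i hi
          rw [show L - 1 - i = L - 1 - (i + 1) + 1 by omega, tailP, ← Nat.add_assoc,
            hg _ (by omega)]
          group) (by
          intro i hi
          rw [← Nat.add_assoc, hx _ (by omega)]
          have : F (j.val * L + i) (B (j.val * L + i)) (u (j.val * L + i)) =
              (tailP Γ (fun s => B (j.val * L + s)) (L - 1 - i) i)⁻¹ := by
            simp only [F, if_pos (show j.val * L + i < J * L by omega), hdiv _ _ hi, hmod _ _ hi]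
            congr 1
            apply tailP_congr
            intro s h1 h2
            have h3 : s < L := by omega
            have h4 := hseq i (by omega) ⟨s, h3⟩
            simp only [show ¬ s < i by omega, if_false, Nat.add_zero] at h4
            simp only [rext, dif_pos h3, dif_pos j.isLt, Fin.eta, h4]
            exact hv ⟨s, h3⟩
          simp only [this, hmod _ _ hi])
      exact ⟨j.val * L + (i + 1), by omega, by omega, e⟩
    · have hconst : ∀ (j : Fin J) (t : ℕ), j.val * L + L + t ≤ J * L →
          (u (j.val * L + L + t)).1 j = (u (j.val * L + L)).1 j := by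
        intro j t
        induction t with
        | zero => intro _; rfl
        | succ t ih =>
          intro ht
          rw [← Nat.add_assoc, hu _ (by omega), ← ih (by omega)]
          have : j.val ≠ (j.val * L + L + t) / L := by
            have : j.val + 1 ≤ (j.val * L + L + t) / L := by
              rw [Nat.le_div_iff_mul_le hL, Nat.succ_mul]; omega
            omega
          simp only [κ, if_pos (show j.val * L + L + t < J * L by omega), if_neg this]
      have h0 : (Φ (u (J * L))).2 = fun _ => o := by
        apply hΦ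
        intro j hj
        apply hex
        have hjL : j.val * L + L ≤ J * L := by
          rw [← Nat.succ_mul]; exact Nat.mul_le_mul_right _ j.isLt
        obtain ⟨t, ht⟩ := Nat.exists_eq_add_of_le hjL
        exact ⟨j, by rw [← hconst j t (by omega), ← ht]; exact hj⟩
      have hstep : ∀ i < L, (Φ (u (J * L + (i + 1)))).2 =
          rop o i (B (J * L + i)) (Φ (u (J * L + i))).2 := by
        intro i hi
        rw [← Nat.add_assoc, hu _ (by omega)]
        simp only [κ, if_neg (show ¬ J * L + i < J * L by omega), hmod _ _ hi,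
          Equiv.apply_symm_apply]
      have hseq := rop_seq o (fun i => B (J * L + i)) (fun i => (Φ (u (J * L + i))).2) hstep
      obtain ⟨i, hi, e⟩ := kill L z hz
        (fun i => headP Γ (fun s => B (J * L + s)) i)
        (fun i => g (J * L + i)) (fun i => x (J * L + i)) (by
          intro i hi
          rw [headP, ← Nat.add_assoc, hg _ (by omega)]) (by
          intro i hi
          rw [← Nat.add_assoc, hx _ (by omega)]
          have : F (J * L + i) (B (J * L + i)) (u (J * L + i)) =
              headP Γ (fun s => B (J * L + s)) i := by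
            simp only [F, if_neg (show ¬ J * L + i < J * L by omega), hmod _ _ hi]
            apply headP_congr
            intro s h1
            have h3 : s < L := by omega
            have h4 := hseq (i + 1) (by omega) ⟨s, h3⟩
            simp only [show s < i + 1 by omega, if_true, Nat.add_zero, h0,
              Equiv.swap_apply_right] at h4
            simp only [rext, dif_pos h3, ← hstep i hi, h4]
          simp only [this, hmod _ _ hi])
      exact ⟨J * L + (i + 1), by omega, by omega, e⟩

end

end Pool.Agent.MP_df6b17_lc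

end

section

/-!
Every group valued function on words whose increments have finite memory is recognised.
-/

set_option autoImplicit false

namespace Pool.Agent.MP_df6b17_lc

section
variable {α G : Type} [Group G]

/-- increment of `F` -/
def DD (F : List α → G) (z v : List α) : G := (F z)⁻¹ * F (z ++ v)

def DMem (n : ℕ) (F : List α → G) : Prop := ∀ v, Mem n (fun z => DD F z v)

theorem DD_nil (F : List α → G) (z : List α) : DD F z [] = 1 := by simp [DD]

theorem DD_append (F : List α → G) (z u v : List α) :
    DD F z (u ++ v) = DD F z u * DD F (z ++ u) v := by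
  simp only [DD, List.append_assoc]; group

def blk (n : ℕ) (z : List α) : {l : List α // l.length ≤ n} := ⟨suf n z, suf_length_le _ _⟩

def cc (F : List α → G) (z : List α) : G := (F z.dropLast)⁻¹ * F z

theorem cc_concat (F : List α → G) (z : List α) (b : α) : cc F (z ++ [b]) = DD F z [b] := by
  simp [cc, DD]

variable {U : Type}

def gπ (F : List α → G) (n T : ℕ) (κ : ℕ → {l : List α // l.length ≤ n} → U → U)
    (β : ℕ → {l : List α // l.length ≤ n} → U → G) (z : List α) (s : G × U × ZMod (n * T)) :
    G × U × ZMod (n * T) :=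
  if (s.2.2.val + 1) % n = 0 then
    ((cc F z)⁻¹ * s.1 * cc F z * β (s.2.2.val / n) (blk n z) s.2.1,
      κ (s.2.2.val / n) (blk n z) s.2.1, s.2.2 + 1)
  else ((cc F z)⁻¹ * s.1 * cc F z, s.2.1, s.2.2 + 1)

variable {F : List α → G} {n T : ℕ} {κ : ℕ → {l : List α // l.length ≤ n} → U → U}
  {β : ℕ → {l : List α // l.length ≤ n} → U → G}

theorem gπ_time (z : List α) (s : G × U × ZMod (n * T)) : (gπ F n T κ β z s).2.2 = s.2.2 + 1 := by
  unfold gπ; split_ifs <;> rfl

theorem gπ_inj (hκ : ∀ k b, Function.Injective (κ k b)) (z : List α) :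
    Function.Injective (gπ F n T κ β z) := by
  rintro ⟨x, u, τ⟩ ⟨x', u', τ'⟩ h
  have h1 := congrArg (fun s => s.2.2) h
  simp only [gπ_time, add_left_inj] at h1
  subst h1
  simp only [gπ] at h
  split_ifs at h
  · simp only [Prod.mk.injEq, and_true] at h
    obtain rfl := hκ _ _ h.2
    simpa using h.1
  · simpa using h

theorem run_time (z : List α) (s : G × U × ZMod (n * T)) (v : List α) :
    (run (gπ F n T κ β) z s v).2.2 = s.2.2 + (v.length : ZMod (n * T)) := by
  induction v generalizing z s with
  | nil => simp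
  | cons b v ih => rw [run_cons, ih, gπ_time]; simp; ring

theorem run_theta (z : List α) (u : U) (τ : ZMod (n * T)) (v : List α) :
    ∃ b u' τ', ∀ x, run (gπ F n T κ β) z (x, u, τ) v = ((DD F z v)⁻¹ * x * b, u', τ') := by
  induction v using List.reverseRecOn with
  | nil => exact ⟨1, u, τ, fun x => by simp [DD_nil]⟩
  | append_singleton v a ih =>
    obtain ⟨b, u', τ', h⟩ := ih
    by_cases hc : (τ'.val + 1) % n = 0
    · refine ⟨b * DD F (z ++ v) [a] * β (τ'.val / n) (blk n (z ++ v ++ [a])) u',
        κ (τ'.val / n) (blk n (z ++ v ++ [a])) u', τ' + 1, fun x => ?_⟩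
      rw [run_concat, h, gπ, if_pos hc, cc_concat, DD_append]
      simp only [Prod.mk.injEq, and_true]
      group
    · refine ⟨b * DD F (z ++ v) [a], u', τ' + 1, fun x => ?_⟩
      rw [run_concat, h, gπ, if_neg hc, cc_concat, DD_append]
      simp only [Prod.mk.injEq, and_true]
      group

theorem run_inblock {k : ℕ} (hk : k < T) (z : List α) (x : G) (u : U) (v : List α)
    (hv : v.length < n) :
    run (gπ F n T κ β) z (x, u, ((n * k : ℕ) : ZMod (n * T))) v =
      ((DD F z v)⁻¹ * x * DD F z v, u, ((n * k + v.length : ℕ) : ZMod (n * T))) := by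
  induction v using List.reverseRecOn with
  | nil => simp [DD_nil]
  | append_singleton v a ih =>
    simp only [List.length_append, List.length_singleton] at hv
    have h1 : n * k + n ≤ n * T := by rw [← Nat.mul_succ]; exact Nat.mul_le_mul_left _ hk
    rw [run_concat, ih (by omega), gπ, if_neg, cc_concat, DD_append]
    · simp only [Prod.mk.injEq, true_and, List.length_append, List.length_singleton]
      constructor
      · group
      · push_cast; ring
    · simp only
      rw [ZMod.val_cast_of_lt (by omega), Nat.add_assoc, Nat.mul_add_mod, Nat.mod_eq_of_lt hv]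
      omega

theorem run_block {k : ℕ} (hk : k < T) (hn : 0 < n) (z : List α) (x : G) (u : U) (v : List α)
    (hv : v.length = n) :
    run (gπ F n T κ β) z (x, u, ((n * k : ℕ) : ZMod (n * T))) v =
      ((DD F z v)⁻¹ * x * DD F z v * β k (blk n (z ++ v)) u, κ k (blk n (z ++ v)) u,
        ((n * (k + 1) : ℕ) : ZMod (n * T))) := by
  obtain ⟨v, a, rfl⟩ : ∃ w a, v = w ++ [a] :=
    ⟨_, _, (List.dropLast_append_getLast (by rintro rfl; simp at hv; omega)).symm⟩
  simp only [List.length_append, List.length_singleton] at hv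
  have h1 : n * k + n ≤ n * T := by rw [← Nat.mul_succ]; exact Nat.mul_le_mul_left _ hk
  have h2 : (n * k + v.length) / n = k := by
    rw [Nat.mul_add_div hn, Nat.div_eq_of_lt (by omega), Nat.add_zero]
  have h3 : ((n * k + v.length : ℕ) : ZMod (n * T)).val = n * k + v.length :=
    ZMod.val_cast_of_lt (by omega)
  rw [run_concat, run_inblock hk _ _ _ _ (by omega), gπ, if_pos, cc_concat, DD_append]
  · simp only [h3, h2, Prod.mk.injEq, List.append_assoc, true_and]
    constructor
    · group
    · rw [Nat.mul_succ, ← hv]; push_cast; ring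
  · simp only
    rw [h3, Nat.add_assoc, hv, Nat.mul_add_mod, Nat.mod_self]

theorem mem_gπ {n0 : ℕ} (hF : DMem n0 F) (hn : n = n0 + 1) : Mem n (gπ F n T κ β) := by
  intro z z' y hy
  obtain ⟨y, a, rfl⟩ : ∃ w a, y = w ++ [a] :=
    ⟨_, _, (List.dropLast_append_getLast (by rintro rfl; simp at hy; omega)).symm⟩
  have h1 : cc F (z ++ (y ++ [a])) = cc F (z' ++ (y ++ [a])) := by
    rw [← List.append_assoc, ← List.append_assoc, cc_concat, cc_concat]
    exact hF [a] z z' y (by simp at hy; omega)
  have h2 : blk n (z ++ (y ++ [a])) = blk n (z' ++ (y ++ [a])) :=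
    Subtype.ext (Mem_suf n z z' _ hy)
  funext s
  simp only [gπ, h1, h2]

theorem cut_gπ {n0 : ℕ} (hF : DMem n0 F) (hn : n = n0 + 1) (hT : 0 < T)
    (hκ : ∀ k b, Function.Injective (κ k b))
    (hO : ∀ (B : ℕ → {l : List α // l.length ≤ n}) (g x : ℕ → G) (u : ℕ → U),
        (∀ k, k + 1 < T → g (k + 1) = DD F (B k).1 (B (k + 1)).1) →
        (∀ k < T, x (k + 1) = (g k)⁻¹ * x k * g k * β k (B k) (u k)) →
        (∀ k < T, u (k + 1) = κ k (B k) (u k)) →
        ∃ k, 0 < k ∧ k ≤ T ∧ x k = 1) :
    Cut (gπ F n T κ β) (fun s => s.1 = 1 ∧ s.2.2.val % n = 0) (n * T + n * T) where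
  inj := gπ_inj hκ
  forget := by
    rintro ⟨x, u, τ⟩ ⟨hx, hτ⟩ z v
    have hn0 : 0 < n := by omega
    have : NeZero (n * T) := ⟨(Nat.mul_pos hn0 hT).ne'⟩
    simp only at hx hτ
    subst hx
    obtain ⟨k, hk⟩ := Nat.dvd_of_mod_eq_zero hτ
    have hkT : k < T := by
      have := ZMod.val_lt τ
      rw [hk] at this
      exact Nat.lt_of_mul_lt_mul_left this
    have e : τ = ((n * k : ℕ) : ZMod (n * T)) := by rw [← hk, ZMod.natCast_zmod_val]
    rw [e]
    rcases lt_or_ge v.length n with hv | hv
    · rw [run_inblock hkT _ _ _ _ hv, run_inblock hkT _ _ _ _ hv]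
      simp
    · have hl : (v.take n).length = n := by simp [hv]
      rw [← List.take_append_drop n v, run_append, run_append, run_block hkT hn0 _ _ _ _ hl,
        run_block hkT hn0 _ _ _ _ hl, run_mem (mem_gπ hF hn) z [] _ hl.ge]
      have h2 : blk n (z ++ v.take n) = blk n ([] ++ v.take n) :=
        Subtype.ext (Mem_suf n z [] _ hl.ge)
      simp [h2]
  ret := by
    intro z ω v hv
    have hn0 : 0 < n := by omega
    have : NeZero (n * T) := ⟨(Nat.mul_pos hn0 hT).ne'⟩
    have hi := ZMod.val_lt (-ω.2.2)
    set i := (-ω.2.2).val with hidef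
    have hle : ∀ k ≤ T, n * k ≤ n * T := fun k hk => Nat.mul_le_mul_left _ hk
    have htime : ∀ k ≤ T, (run (gπ F n T κ β) z ω (v.take (i + n * k))).2.2 =
        ((n * k : ℕ) : ZMod (n * T)) := by
      intro k hk
      have := hle k hk
      rw [run_time, List.length_take, min_eq_left (by omega), Nat.cast_add, hidef,
        ZMod.natCast_zmod_val]
      ring
    have hblk : ∀ k < T, ((v.drop (i + n * k)).take n).length = n := by
      intro k hk
      have := hle (k + 1) hk
      rw [Nat.mul_succ] at this
      simp only [List.length_take, List.length_drop]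
      omega
    have hsplit : ∀ k, v.take (i + n * (k + 1)) =
        v.take (i + n * k) ++ (v.drop (i + n * k)).take n := by
      intro k
      rw [Nat.mul_succ, ← Nat.add_assoc, List.take_add]
    have hstep : ∀ k < T, run (gπ F n T κ β) z ω (v.take (i + n * (k + 1))) =
        ((DD F (z ++ v.take (i + n * k)) ((v.drop (i + n * k)).take n))⁻¹ *
          (run (gπ F n T κ β) z ω (v.take (i + n * k))).1 *
          DD F (z ++ v.take (i + n * k)) ((v.drop (i + n * k)).take n) *
          β k (blk n (z ++ v.take (i + n * (k + 1))))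
            (run (gπ F n T κ β) z ω (v.take (i + n * k))).2.1,
          κ k (blk n (z ++ v.take (i + n * (k + 1))))
            (run (gπ F n T κ β) z ω (v.take (i + n * k))).2.1,
          ((n * (k + 1) : ℕ) : ZMod (n * T))) := by
      intro k hk
      have e : run (gπ F n T κ β) z ω (v.take (i + n * k)) =
          ((run (gπ F n T κ β) z ω (v.take (i + n * k))).1,
            (run (gπ F n T κ β) z ω (v.take (i + n * k))).2.1,
            ((n * k : ℕ) : ZMod (n * T))) := by
        rw [← htime k hk.le]
      conv_lhs => rw [hsplit, run_append, e, run_block hk hn0 _ _ _ _ (hblk k hk),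
        List.append_assoc, ← hsplit]
    obtain ⟨k, h1, h2, h3⟩ := hO (fun k => blk n (z ++ v.take (i + n * (k + 1))))
      (fun k => DD F (z ++ v.take (i + n * k)) ((v.drop (i + n * k)).take n))
      (fun k => (run (gπ F n T κ β) z ω (v.take (i + n * k))).1)
      (fun k => (run (gπ F n T κ β) z ω (v.take (i + n * k))).2.1)
      (by
        intro k hk
        simp only [blk]
        rw [hsplit (k + 1), ← List.append_assoc, suf_append _ _ (hblk _ hk).ge,
          suf_of_le (hblk _ hk).le]
        have := ((hF ((v.drop (i + n * (k + 1))).take n)).mono (show n0 ≤ n by omega)).suf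
          (z ++ v.take (i + n * (k + 1))) []
        simpa using this.symm)
      (fun k hk => by rw [hstep k hk])
      (fun k hk => by rw [hstep k hk])
    have := hle k h2
    refine ⟨i + n * k, by have := Nat.mul_pos hn0 h1; omega, by omega, h3, ?_⟩
    rw [htime k h2, ZMod.val_natCast, Nat.mod_mod_of_dvd _ (Dvd.intro _ rfl), Nat.mul_mod_right]

variable {W : (k : ℕ) → Set (Set (List (Fin k)))}

theorem rec_central (hW : Closed W) [Finite α] [Nonempty α] [Finite G] {n0 : ℕ}
    (hF : DMem n0 F) : ∃ lam : ℕ, ∀ h0 y0 : List α, lam ≤ h0.length → lam ≤ y0.length →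
      ∃ (T : Type) (R : List α → T), Rec W R ∧ ∀ w w', R w = R w' →
        ∀ x, DD F [] (h0 ++ w' ++ y0) * (DD F [] (h0 ++ w ++ y0))⁻¹ * x =
          x * (DD F [] (h0 ++ w' ++ y0) * (DD F [] (h0 ++ w ++ y0))⁻¹) := by
  have : Finite {l : List α // l.length ≤ n0 + 1} := (List.finite_length_le α _).to_subtype
  obtain ⟨U, _, ⟨u0⟩, T, κ, β, hT, hκ, hO⟩ :=
    oracle (A := {l : List α // l.length ≤ n0 + 1}) ⟨[], by simp⟩ (fun B B' => DD F B.1 B'.1)
  have : NeZero ((n0 + 1) * T) := ⟨(Nat.mul_pos (by omega) hT).ne'⟩
  have hc := cut_gπ hF rfl hT hκ hO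
  refine ⟨(n0 + 1) * T + (n0 + 1) * T + (n0 + 1), fun h0 y0 h1 h2 => ⟨_, _,
    hc.rec_run hW (mem_gπ hF rfl) h0 y0 (by omega) (by omega), fun w w' e x => ?_⟩⟩
  obtain ⟨b, u', τ', hb⟩ := run_theta (F := F) (κ := κ) (β := β) [] u0 0 (h0 ++ w ++ y0)
  obtain ⟨b', u'', τ'', hb'⟩ := run_theta (F := F) (κ := κ) (β := β) [] u0 0 (h0 ++ w' ++ y0)
  have e1 := congrArg Prod.fst ((hb x).symm.trans ((congrFun e (x, u0, 0)).trans (hb' x)))
  have e2 := congrArg Prod.fst ((hb 1).symm.trans ((congrFun e (1, u0, 0)).trans (hb' 1)))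
  simp only [mul_one] at e1 e2
  generalize DD F [] (h0 ++ w' ++ y0) = a' at *
  generalize DD F [] (h0 ++ w ++ y0) = a at *
  calc a' * a⁻¹ * x = a' * (a⁻¹ * x * b) * (a⁻¹ * b)⁻¹ * a⁻¹ := by group
    _ = a' * (a'⁻¹ * x * b') * (a'⁻¹ * b')⁻¹ * a⁻¹ := by rw [e1, e2]
    _ = x * (a' * a⁻¹) := by group

theorem rec_padded (hW : Closed W) [Finite α] [Nonempty α] [Finite G] {n0 : ℕ}
    (hF : DMem n0 F) : ∃ lam : ℕ, ∀ h0 y0 : List α, lam ≤ h0.length → lam ≤ y0.length →
      Rec W (fun w => F (h0 ++ w ++ y0)) := by
  classical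
  let ι : G →* Equiv.Perm (G ⊕ Unit) :=
    (Equiv.Perm.sumCongrHom G Unit).comp ((MulAction.toPermHom G G).prod 1)
  have hD : ∀ z v, DD (fun w => ι (F w)) z v = ι (DD F z v) := by
    intro z v; simp only [DD, map_mul, map_inv]
  have hF' : DMem n0 (fun w => ι (F w)) := by
    intro v z z' y hy
    simp only [hD]
    exact congrArg ι (hF v z z' y hy)
  obtain ⟨lam, h⟩ := rec_central hW hF'
  refine ⟨lam, fun h0 y0 h1 h2 => ?_⟩
  obtain ⟨T, R, hR, hR'⟩ := h h0 y0 h1 h2
  refine hR.determined (fun w w' _ _ e => ?_)
  have e1 := hR' w w' e (Equiv.swap (Sum.inr ()) (Sum.inl 1))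
  rw [hD, hD, ← map_inv, ← map_mul] at e1
  have e2 := congrArg (fun σ : Equiv.Perm (G ⊕ Unit) => σ (Sum.inr ())) e1
  simp only [ι, Equiv.Perm.mul_apply, Equiv.swap_apply_left] at e2
  have e3 : DD F [] (h0 ++ w' ++ y0) * (DD F [] (h0 ++ w ++ y0))⁻¹ = 1 := by
    simpa using e2
  rw [mul_inv_eq_one] at e3
  simp only [DD, List.nil_append] at e3
  exact (mul_left_cancel e3).symm

/-- one step of the padded cocycle -/
def pstep (F : List α → G) (s : G × List α) : Option α → G × List α
  | none => (s.1, [])
  | some a => (s.1 * DD F s.2 [a], s.2 ++ [a])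

theorem pstep_foldl (g : G) (s : List α) (v : List (Option α)) :
    v.foldl (pstep F) (g, s) =
      (g * (v.foldl (pstep F) (1, s)).1, (v.foldl (pstep F) (1, s)).2) := by
  induction v generalizing g s with
  | nil => simp
  | cons b v ih =>
    cases b with
    | none => simp only [List.foldl_cons, pstep]; exact ih _ _
    | some a =>
      simp only [List.foldl_cons, pstep]
      rw [ih (g * _), ih (1 * _)]
      simp [mul_assoc]

theorem pstep_congr (v : List (Option α)) (g : G) {s s' : List α}
    (h : ∀ w, DD F s w = DD F s' w) :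
    (v.foldl (pstep F) (g, s)).1 = (v.foldl (pstep F) (g, s')).1 := by
  induction v generalizing g s s' with
  | nil => rfl
  | cons b v ih =>
    cases b with
    | none => rfl
    | some a =>
      simp only [List.foldl_cons, pstep, h [a]]
      apply ih
      intro w
      have h1 := h ([a] ++ w)
      rw [DD_append, DD_append, h [a]] at h1
      exact mul_left_cancel h1

theorem pstep_snd (y : List (Option α)) :
    (∃ t, ∀ s, (y.foldl (pstep F) s).2 = t) ∨
      (∃ y' : List α, y'.length = y.length ∧ ∀ s, (y.foldl (pstep F) s).2 = s.2 ++ y') := by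
  induction y using List.reverseRecOn with
  | nil => exact Or.inr ⟨[], rfl, fun s => by simp⟩
  | append_singleton y b ih =>
    cases b with
    | none => exact Or.inl ⟨[], fun s => by simp [pstep]⟩
    | some a =>
      rcases ih with ⟨t, ht⟩ | ⟨y', h1, h2⟩
      · exact Or.inl ⟨t ++ [a], fun s => by simp [pstep, ht]⟩
      · exact Or.inr ⟨y' ++ [a], by simp [h1], fun s => by simp [pstep, h2]⟩

theorem pstep_none (g : G) (s : List α) (m : ℕ) :
    ((List.replicate m none).foldl (pstep F) (g, s)).1 = g ∧
      (s = [] → ((List.replicate m none).foldl (pstep F) (g, s)).2 = []) := by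
  induction m generalizing s with
  | zero => simp
  | succ m ih =>
    simp only [List.replicate_succ, List.foldl_cons, pstep]
    exact ⟨(ih []).1, fun _ => (ih []).2 rfl⟩

theorem pstep_some (g : G) (s w : List α) :
    (w.map some).foldl (pstep F) (g, s) = (g * DD F s w, s ++ w) := by
  induction w generalizing g s with
  | nil => simp [DD_nil]
  | cons a w ih =>
    simp only [List.map_cons, List.foldl_cons, pstep, ih]
    rw [show a :: w = [a] ++ w from rfl, DD_append]
    simp [mul_assoc]

theorem rec_cocycle (hW : Closed W) [Finite α] [Finite G] {n0 : ℕ} (hF : DMem n0 F) :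
    Rec W F := by
  let F' : List (Option α) → G := fun z => (z.foldl (pstep F) (1, [])).1
  have hD : ∀ z v, DD F' z v = (v.foldl (pstep F) (1, (z.foldl (pstep F) (1, [])).2)).1 := by
    intro z v
    simp only [DD, F', List.foldl_append]
    rw [pstep_foldl (z.foldl (pstep F) (1, [])).1 (z.foldl (pstep F) (1, [])).2 v]
    simp
  have hF' : DMem n0 F' := by
    intro v z z' y hy
    simp only [hD, List.foldl_append]
    rcases pstep_snd (F := F) y with ⟨t, ht⟩ | ⟨y', h1, h2⟩
    · rw [ht, ht]
    · rw [h2, h2]
      exact pstep_congr _ _ (fun w => hF w _ _ y' (by omega))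
  obtain ⟨lam, h⟩ := rec_padded hW hF'
  have h1 := (h (List.replicate lam none) (List.replicate lam none) (by simp) (by simp)).inv hW
    (fun a => [some a]) (fun a => by simp)
  have key : ∀ w : List α, F' (List.replicate lam none ++ w.flatMap (fun a => [some a]) ++
      List.replicate lam none) = DD F [] w := by
    intro w
    have e1 : w.flatMap (fun a => [some a]) = w.map some := by
      induction w with
      | nil => rfl
      | cons a w ih => simp [ih]
    have e2 : (List.replicate lam none).foldl (pstep F) (1, []) = (1, []) :=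
      Prod.ext (pstep_none 1 [] lam).1 ((pstep_none 1 [] lam).2 rfl)
    simp only [F', List.foldl_append, e1, e2, pstep_some, (pstep_none _ _ lam).1, one_mul]
  refine h1.determined (fun w w' _ _ e => ?_)
  rw [key, key] at e
  simpa [DD] using e

end

end Pool.Agent.MP_df6b17_lc

end

section

/-!
A morphism into a finite local group is determined by a bounded initial part, a bounded final part
and a group valued function with finite memory increments.
-/

set_option autoImplicit false

namespace Pool.Agent.MP_df6b17_lc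

section
variable {α : Type} {W : (k : ℕ) → Set (Set (List (Fin k)))}

def acc {G : Type} [Group G] (c : List α → G) (w : List α) : G :=
  ((List.range w.length).map (fun i => c (w.take i))).prod

theorem acc_concat {G : Type} [Group G] (c : List α → G) (w : List α) (a : α) :
    acc c (w ++ [a]) = acc c w * c w := by
  simp only [acc, List.length_append, List.length_singleton, List.range_succ, List.map_append,
    List.prod_append, List.map_cons, List.map_nil, List.prod_cons, List.prod_nil, mul_one,
    List.take_left']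
  congr 2
  apply List.map_congr_left
  intro i hi
  rw [List.take_append_of_le_length (List.mem_range.1 hi).le]

theorem rec_of_mem_group (hW : Closed W) [Finite α] [Nonempty α] {G : Type} [Group G] [Finite G]
    {n : ℕ} {c : List α → G} (hc : Mem n c) : Rec W c := by
  obtain ⟨a⟩ := ‹Nonempty α›
  have h1 : DMem n (acc c) := by
    intro v z z' y hy
    induction v using List.reverseRecOn with
    | nil => simp [DD_nil]
    | append_singleton v b ih =>
      simp only [DD_append] at ih ⊢
      rw [ih]
      congr 1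
      simp only [DD, acc_concat, inv_mul_cancel_left]
      rw [List.append_assoc, List.append_assoc]
      exact hc _ _ _ (by simp; omega)
  have h2 := rec_cocycle hW h1
  refine (h2.pair hW (h2.right hW [a])).determined (fun w w' _ _ e => ?_)
  simp only [Prod.mk.injEq, acc_concat] at e
  have := e.2
  rw [e.1] at this
  exact mul_left_cancel this

theorem swap_none_inj {T : Type} [DecidableEq T] {t t' : T}
    (h : Equiv.swap none (some t) = Equiv.swap none (some t')) : t = t' := by
  have := congrArg (fun σ : Equiv.Perm (Option T) => σ none) h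
  simpa using this

theorem rec_suf (hW : Closed W) [Finite α] [Nonempty α] (n : ℕ) : Rec W (blk (α := α) n) := by
  classical
  have : Finite {l : List α // l.length ≤ n} := (List.finite_length_le α _).to_subtype
  have h : Mem n (fun z : List α => Equiv.swap none (some (blk n z))) := by
    intro z z' y hy
    have : blk n (z ++ y) = blk n (z' ++ y) := Subtype.ext (Mem_suf n z z' _ hy)
    simp only [this]
  exact (rec_of_mem_group hW h).determined (fun w w' _ _ e => swap_none_inj e)

def ini (n : ℕ) (z : List α) : {l : List α // l.length ≤ n} := ⟨z.take n, by simp⟩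

theorem rec_ini (hW : Closed W) [Finite α] (n : ℕ) : Rec W (ini (α := α) n) := by
  classical
  have : Finite {l : List α // l.length ≤ n} := (List.finite_length_le α _).to_subtype
  have h : DMem n (fun z : List α => Equiv.swap none (some (ini n z))) := by
    have key : ∀ z v : List α, n ≤ z.length →
        DD (fun z : List α => Equiv.swap none (some (ini n z))) z v = 1 := by
      intro z v hz
      have : ini n (z ++ v) = ini n z := Subtype.ext (List.take_append_of_le_length hz)
      simp only [DD, this, inv_mul_cancel]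
    intro v z z' y hy
    simp only
    rw [key _ _ (by simp; omega), key _ _ (by simp; omega)]
  exact (rec_cocycle hW h).determined (fun w w' _ _ e => swap_none_inj e)

variable {S : Type} [Semigroup S]

/-- the local group at an idempotent -/
@[reducible] noncomputable def locGroup (e : S) (he : e * e = e)
    (h : ∀ x : S, ∃ y : S, (e * x * e) * (e * y * e) = e ∧ (e * y * e) * (e * x * e) = e) :
    Group {x : S // e * x * e = x} :=
  letI : Mul {x : S // e * x * e = x} := ⟨fun x y => ⟨x.1 * y.1, by
    have h1 : e * x.1 = x.1 := by rw [← x.2, ← mul_assoc, ← mul_assoc, he]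
    have h2 : y.1 * e = y.1 := by rw [← y.2, mul_assoc, he]
    rw [← mul_assoc, h1, mul_assoc, h2]⟩⟩
  letI : One {x : S // e * x * e = x} := ⟨⟨e, by rw [he, he]⟩⟩
  letI : Inv {x : S // e * x * e = x} := ⟨fun x => ⟨e * Classical.choose (h x.1) * e, by
    rw [← mul_assoc, ← mul_assoc, he, mul_assoc, he]⟩⟩
  Group.ofLeftAxioms
    (fun a b c => Subtype.ext (mul_assoc a.1 b.1 c.1))
    (fun a => Subtype.ext (by
      change e * a.1 = a.1
      rw [← a.2, ← mul_assoc, ← mul_assoc, he]))
    (fun a => Subtype.ext (by
      change e * Classical.choose (h a.1) * e * a.1 = e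
      exact (congrArg (fun t => e * Classical.choose (h a.1) * e * t) a.2).symm.trans
        (Classical.choose_spec (h a.1)).2))

theorem exists_factor [Finite S] {φ : List α → S}
    (hφ : ∀ u v : List α, u ≠ [] → v ≠ [] → φ (u ++ v) = φ u * φ v) (y : List α)
    (hy : Nat.card S + 1 ≤ y.length) : ∃ s₁ f s₂ : S, f * f = f ∧ φ y = s₁ * f * s₂ := by
  have := Fintype.ofFinite S
  have key : ∀ i j : Fin (Nat.card S + 1), i < j → φ (y.take (i + 1)) = φ (y.take (j + 1)) →
      ∃ s₁ f s₂ : S, f * f = f ∧ φ y = s₁ * f * s₂ := by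
    intro i j hij e
    have hj := j.isLt
    have hij' : i.val < j.val := hij
    have ne1 : y.take (i + 1) ≠ [] := by
      intro h; have := congrArg List.length h
      simp only [List.length_take, List.length_nil] at this; omega
    have ne2 : (y.drop (i + 1)).take (j - i) ≠ [] := by
      intro h; have := congrArg List.length h
      simp only [List.length_take, List.length_drop, List.length_nil] at this; omega
    have ne3 : y.drop (i + 1) ≠ [] := by
      intro h; have := congrArg List.length h
      simp only [List.length_drop, List.length_nil] at this; omega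
    rw [show j.val + 1 = (i + 1) + (j - i) by omega, List.take_add (i := i + 1),
      hφ _ _ ne1 ne2] at e
    obtain ⟨f, hf1, hf2⟩ := exists_idem {t | φ (y.take (i + 1)) * t = φ (y.take (i + 1))}
      ⟨_, e.symm⟩ (by
        intro a ha b hb
        simp only [Set.mem_ofPred_eq] at ha hb ⊢
        rw [← mul_assoc, ha, hb])
    refine ⟨φ (y.take (i + 1)), f, φ (y.drop (i + 1)), hf2, ?_⟩
    rw [hf1, ← hφ _ _ ne1 ne3, List.take_append_drop]
  obtain ⟨i, j, hne, e⟩ := Fintype.exists_ne_map_eq_of_card_lt
    (fun i : Fin (Nat.card S + 1) => φ (y.take (i + 1))) (by simp)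
  rcases lt_or_gt_of_ne hne with h | h
  · exact key i j h e
  · exact key j i h e.symm

theorem rec_hom (hW : Closed W) [Finite α] [Finite S]
    (hS : ∀ e : S, e * e = e → ∀ x : S, ∃ y : S,
      (e * x * e) * (e * y * e) = e ∧ (e * y * e) * (e * x * e) = e)
    {φ : List α → S} (hφ : ∀ u v : List α, u ≠ [] → v ≠ [] → φ (u ++ v) = φ u * φ v) :
    Rec W φ := by
  classical
  rcases isEmpty_or_nonempty α with hα | hα
  · have : Rec W (fun _ : List α => ()) := fun X => WW_const hW _
    refine this.determined (fun w w' hw _ _ => ?_)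
    obtain ⟨a, _, _⟩ := List.exists_cons_of_ne_nil hw
    exact isEmptyElim a
  obtain ⟨e, _, he⟩ := exists_idem (Set.univ : Set S) ⟨φ [], trivial⟩ (fun _ _ _ _ => trivial)
  have ne : ∀ y : List α, Nat.card S + 1 ≤ y.length → y ≠ [] := by
    rintro y hy rfl; simp at hy
  have longL : ∀ p : List α, Nat.card S + 1 ≤ p.length →
      ∃ a : S, ∀ v, φ (p ++ v) = a * e * φ (p ++ v) := by
    intro p hp
    obtain ⟨s₁, f, s₂, hf, hp'⟩ := exists_factor hφ p hp
    obtain ⟨c, _, hc⟩ := hS f hf (e * s₁)
    have h1 : φ p = s₁ * f * c * f * e * φ p := by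
      rw [hp']
      conv_lhs => rw [← hc]
      have ff : ∀ z, f * (f * z) = f * z := fun z => by rw [← mul_assoc, hf]
      simp only [mul_assoc, ff]
    refine ⟨s₁ * f * c * f, fun v => ?_⟩
    by_cases hv : v = []
    · rw [hv, List.append_nil]; exact h1
    · rw [hφ _ _ (ne p hp) hv, ← mul_assoc, ← h1]
  have longR : ∀ p : List α, Nat.card S + 1 ≤ p.length →
      ∃ a : S, ∀ v, φ (v ++ p) = φ (v ++ p) * e * a := by
    intro p hp
    obtain ⟨s₁, f, s₂, hf, hp'⟩ := exists_factor hφ p hp
    obtain ⟨c, hc, _⟩ := hS f hf (s₂ * e)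
    have h1 : φ p = φ p * e * (f * c * f * s₂) := by
      rw [hp']
      conv_lhs => rw [← hc]
      have ff : ∀ z, f * (f * z) = f * z := fun z => by rw [← mul_assoc, hf]
      simp only [mul_assoc, ff]
    refine ⟨f * c * f * s₂, fun v => ?_⟩
    by_cases hv : v = []
    · rw [hv, List.nil_append]; exact h1
    · rw [hφ _ _ hv (ne p hp), mul_assoc, mul_assoc, ← mul_assoc (φ p), ← h1]
  have ee : ∀ z, e * (e * z) = e * z := fun z => by rw [← mul_assoc, he]
  have hloc : ∀ x : S, e * (e * x * e) * e = e * x * e := fun x => by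
    simp only [mul_assoc, ee, he]
  let : Group {x : S // e * x * e = x} := locGroup e he (hS e he)
  let F : List α → {x : S // e * x * e = x} :=
    fun w => if w = [] then 1 else ⟨e * φ w * e, hloc _⟩
  have hmul : ∀ x y : {x : S // e * x * e = x}, (x * y).1 = x.1 * y.1 := fun _ _ => rfl
  have hF : DMem (Nat.card S + 1) F := by
    have key : ∀ z y v : List α, Nat.card S + 1 ≤ y.length → DD F (z ++ y) v = DD F y v := by
      intro z y v hy
      by_cases hz : z = []
      · simp [hz]
      obtain ⟨a, ha⟩ := longL y hy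
      have h1 : ∀ v, F (z ++ y ++ v) = ⟨e * (φ z * a) * e, hloc _⟩ * F (y ++ v) := by
        intro v
        have n1 : y ++ v ≠ [] := by simp [ne y hy]
        apply Subtype.ext
        rw [hmul]
        simp only [F, if_neg n1, if_neg (show z ++ y ++ v ≠ [] by simp [hz])]
        rw [List.append_assoc, hφ _ _ hz n1]
        conv_lhs => rw [ha v]
        simp only [mul_assoc, ee]
      have h2 := h1 []
      simp only [List.append_nil] at h2
      simp only [DD]
      rw [h1 v, h2]
      group
    intro v z z' y hy
    simp only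
    rw [key _ _ _ hy, key _ _ _ hy]
  have : Finite {l : List α // l.length ≤ Nat.card S + 1} :=
    (List.finite_length_le α _).to_subtype
  refine (((rec_ini hW (Nat.card S + 1)).pair hW (rec_suf hW (Nat.card S + 1))).pair hW
    (rec_cocycle hW hF)).determined (fun w w' hw hw' h => ?_)
  simp only [Prod.mk.injEq, ini, blk, Subtype.mk.injEq] at h
  obtain ⟨⟨h1, h2⟩, h3⟩ := h
  have h4 : e * φ w * e = e * φ w' * e := by
    have := congrArg Subtype.val h3
    simpa only [F, if_neg hw, if_neg hw'] using this
  have hl := congrArg List.length h1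
  simp only [List.length_take] at hl
  rcases lt_or_ge w.length (Nat.card S + 1) with l | l
  · rw [List.take_of_length_le (by omega), List.take_of_length_le (by omega)] at h1
    rw [h1]
  · have l' : Nat.card S + 1 ≤ w'.length := by omega
    obtain ⟨a, ha⟩ := longL (w.take (Nat.card S + 1)) (by simp [l])
    obtain ⟨b, hb⟩ := longR (suf (Nat.card S + 1) w) (suf_length_of_le l).ge
    have g1 := ha (w.drop (Nat.card S + 1))
    have g2 := ha (w'.drop (Nat.card S + 1))
    rw [List.take_append_drop] at g1
    rw [h1, List.take_append_drop] at g2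
    obtain ⟨t, ht⟩ := suf_suffix (Nat.card S + 1) w
    obtain ⟨t', ht'⟩ := suf_suffix (Nat.card S + 1) w'
    have g3 := hb t
    have g4 := hb t'
    rw [ht] at g3
    rw [h2, ht'] at g4
    calc φ w = a * e * φ w := g1
      _ = a * e * (φ w * e * b) := by rw [← g3]
      _ = a * (e * φ w * e) * b := by simp only [mul_assoc]
      _ = a * (e * φ w' * e) * b := by rw [h4]
      _ = a * e * (φ w' * e * b) := by simp only [mul_assoc]
      _ = a * e * φ w' := by rw [← g4]
      _ = φ w' := g2.symm

theorem main (hW : Closed W) (n : ℕ) (L : Set (List (Fin n))) (hL : LGRec L) : L ∈ W n := by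
  obtain ⟨S, _, _, hS, φ, hφ, X, rfl⟩ := hL
  exact (rec_hom hW hS hφ (fun s => s ∈ X)).toFin hW

end

end Pool.Agent.MP_df6b17_lc

end
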